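import Pool.Agent.P.MP_08fd93_co.FW.T5
import Pool.Agent.P.MP_08fd93_co.FS2.C2a
import Pool.Agent.P.MP_08fd93_co.FH.H3

/-! Depth two: all anchored neighbours lie on the level line of the single root. -/

set_option autoImplicit false

namespace Pool.Agent.P.MP_08fd93_co.FW

open OV FZ FP2 FY

variable {J : Type} {Γ : SimpleGraph (Vx J)} {η : ℤ × ℤ →+ ℤ} {G G' : TD J}
  {v z u p q t L R L' R' : Vx J} {g g' h : Vx J → ℤ} {w c1 c2 : ℤ × ℤ} {l1 l2 : ℤ → Vx J}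

/-- at most two anchored neighbours lie on the level line -/
theorem H1.two (H : H1 Γ η v h) (hU : UW Γ η (rais h v) w) (n1 : z ≠ u) (n2 : z ≠ t) (n3 : u ≠ t)
    (k : ∀ x, x = z ∨ x = u ∨ x = t → x ∈ Pa Γ η v ∧ x ∈ LL Γ (rais h v) 1) : False := by
  have fv := H.fv
  refine PkLConP.k33 H.fine.pl.k33 (isConn_single v) (hU.conn 2) (hU.low 0)
    (Set.disjoint_singleton_left.2 fun m => by have := hU.ge _ _ m; omega)
    (Set.disjoint_singleton_left.2 fun m : rais h v v ≤ 0 => by omega)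
    (Set.disjoint_left.2 fun x m (c : rais h v x ≤ 0) => by have := hU.ge _ _ m; omega)
    n1 n2 n3 fun x hx => ?_
  obtain ⟨⟨y, a⟩, l⟩ := k x hx
  have := H.fnb a.vu
  exact ⟨⟨a.vu.ne', l.2, fun c : rais h v x ≤ 0 => by omega⟩, ⟨v, rfl, a.vu.symm⟩, l.1,
    y, (H.fanc a).le, a.up⟩

/-- The root has exactly two anchored neighbours, both on the level line, with separate anchors. -/
structure CW (Γ : SimpleGraph (Vx J)) (η : ℤ × ℤ →+ ℤ) (h : Vx J → ℤ) (w : ℤ × ℤ)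
    (v z u p q : Vx J) : Prop where
  H : H1 Γ η v h
  hU : UW Γ η (rais h v) w
  az : Anc Γ η v z p
  au : Anc Γ η v u q
  zq : ¬ Γ.Adj z q
  up : ¬ Γ.Adj u p
  zl : z ∈ LL Γ (rais h v) 1
  ul : u ∈ LL Γ (rais h v) 1
  two : ∀ x ∈ Pa Γ η v, x = z ∨ x = u

theorem CW.symm (C : CW Γ η h w v z u p q) : CW Γ η h w v u z q p :=
  ⟨C.H, C.hU, C.au, C.az, C.up, C.zq, C.ul, C.zl, fun x m => (C.two x m).symm⟩

theorem CW.ne (C : CW Γ η h w v z u p q) : u ≠ z := fun e => C.zq (e ▸ C.au.up)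

theorem CW.ft (C : CW G.Γ G.η h w v z u p q) (P : PF G v z g L R) {x y : Vx J}
    (a : G.Γ.Adj v x) (hy : y ∈ G.L 0) (b : G.Γ.Adj x y) (c : G.Γ.Adj z y) : x = z ∨ x = u :=
  let k := P.foot hy c
  C.two x ⟨y, a, b, k.pv, k.low⟩

theorem CW.sd (C : CW Γ η h w v z u p q) (P : PF G v z g L R) (eΓ : G.Γ = Γ) (eη : G.η = η)
    (m : u ∈ G.Im R (G.nx R)) : Sd Γ η h G v z u g L R :=
  ⟨P, eΓ, eη, C.H, C.au.vu, m, C.ul.1, C.hU.conn 2, C.hU.ge 2⟩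

variable [Fintype J]

theorem CW.hc (C : CW Γ η h w v z u p q) (S : Sd Γ η h G v z u g L R)
    (S' : Sd Γ η h G' v u z g' L' R') (e : ∀ j, G'.L j = G.L j) : ∃ p, FH.HC G v z u p R g := by
  have P := S.pf
  obtain ⟨a, -, -, k⟩ := S'.hub S fun j => (e j).symm
  have e1 := S'.eΓ
  have e2 := S'.eη
  obtain rfl := S.eΓ
  obtain rfl := S.eη
  obtain ⟨p', T⟩ := P.rt
  have q0 := P.anc_row C.au
  refine ⟨p', T, P.an2, P.fr, P.R1, S.aR, (S.ah S' e).1, S.uI, S.vu.symm, k, ?_, q, q0, C.au.up,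
    lt_of_le_of_ne (P.imR S.uI C.au.up q0).1 fun c => C.zq ?_⟩
  · rintro x a y hy b (c | c | c)
    · exact C.ft P a.symm hy b c
    · have C' : CW G'.Γ G'.η h w v u z q p := by
        rw [e1, e2]
        exact C.symm
      exact (C'.ft S'.pf (e1 ▸ a.symm) (e 0 ▸ hy) (e1 ▸ b) (e1 ▸ c)).symm
    · exact absurd b (S.row S' e c a.symm hy)
  · exact P.rows.inj P.feet.2.1.1 q0 c ▸ P.feet.2.1.2

theorem frame (hN : NJ Γ Set.univ) (T : TR Γ η v z p g) :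
    ∃ G L R, PF G v z g L R ∧ G.Γ = Γ ∧ G.η = η := by
  obtain ⟨a0, e0, h0⟩ := T.an_ex
  obtain ⟨an, A, -⟩ := T.an2 e0 h0
  obtain ⟨G, H⟩ := exists_fr2 hN T A
  have hΓ := H.eΓ
  have hη := H.eη
  obtain ⟨L, R, P⟩ := pf_ex (G := G) (v := v) (z := z) (p := p) (g := g) (by rwa [hΓ, hη])
    (by rwa [hΓ, H.ea]) (by rwa [hΓ, hη, H.ea])
  exact ⟨G, L, R, P, hΓ, hη⟩

/-- the other anchored neighbour lies on the line of the frame -/
theorem CW.on (g1 : FP.S_G1) (lz : FE.S_LongZ) (hN : NJ Γ Set.univ) (C : CW Γ η h w v z u p q)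
    (T : TR Γ η v z t g) (m : u ∈ LL Γ (rz v z g) 1) : ∃ c, Col1 Γ ∅ c := by
  obtain ⟨G, L, R, P, rfl, rfl⟩ := frame hN T
  exact FS2.c2a g1 lz hN P C.au.vu (P.eL 1 ▸ m) (P.anc_row C.au) C.au.up C.zq
    fun x a y hy b c => C.ft P a hy b c

/-- both anchored neighbours lie off the line of the other frame -/
theorem CW.off (H1 : FH.S_H1) (H2 : FH.S_H2) (HO : FH.S_HO) (L1 : FH.S_L1) (L3 : FH.S_L3)
    (C : CW G.Γ G.η h w v z u p q) (P : PF G v z g L R) (T : TR G.Γ G.η v u q g')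
    (m : u ∈ G.Im R (G.nx R)) (o : z ∉ LL G.Γ (rz v u g') 1) : ∃ c, Col1 G.Γ ∅ c := by
  have S := C.sd P rfl rfl m
  obtain ⟨p0, T0⟩ := P.rt
  obtain ⟨w', W⟩ := T.wp
  obtain ⟨G', L', R', P', s⟩ := P.other T
    (TR.same T0 T P.uw (W.uw ⟨v.1⟩) o (P.eL 1 ▸ fun k => S.no k m))
  have C' : CW G'.Γ G'.η h w v u z q p := by
    rw [s.eΓ, s.eη]
    exact C.symm
  have zI := (P'.loc C'.au.vu C'.ne (by rwa [P'.eL, s.eΓ]) (P'.anc_row C'.au)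
    C'.au.up).resolve_right (Sm.swapR P P' s m)
  have S' := C.symm.sd P'.rev s.eΓ s.eη (P'.im_rev zI)
  have e : ∀ j, (mirT G').L j = G.L j := s.eL
  obtain ⟨p1, k⟩ := C.hc S S' e
  obtain ⟨p2, k'⟩ := C.symm.hc S' S fun j => (e j).symm
  exact FH.c2h_col H1 H2 HO L1 L3 k k' ⟨s.eΓ, e, fun x => by rw [← s.eρ]; rfl,
    by rw [← s.ew]; rfl, s.en, (S.ah S' e).2⟩

theorem CW.col (g1 : FP.S_G1) (lz : FE.S_LongZ) (H1 : FH.S_H1) (H2 : FH.S_H2) (HO : FH.S_HO)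
    (L1 : FH.S_L1) (L3 : FH.S_L3) (hN : NJ Γ Set.univ) (C : CW Γ η h w v z u p q)
    (T : TR Γ η v z t g) : ∃ c, Col1 Γ ∅ c := by
  by_cases m : u ∈ LL Γ (rz v z g) 1
  · exact C.on g1 lz hN T m
  obtain ⟨G, L, R, P, rfl, rfl⟩ := frame hN T
  obtain ⟨g', T'⟩ := TR.valid T P.uw C.au m
  by_cases o : z ∈ LL G.Γ (rz v u g') 1
  · exact C.symm.on g1 lz hN T' o
  rcases P.loc C.au.vu C.ne (P.eL 1 ▸ m) (P.anc_row C.au) C.au.up with k | k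
  · exact CW.off (G := mirT G) H1 H2 HO L1 L3 C P.rev T' (P.im_rev k) o
  · exact C.off H1 H2 HO L1 L3 P T' k o

/-- All anchored neighbours of the root lie on its level line. -/
theorem c2w (g1 : FP.S_G1) (lz : FE.S_LongZ) (H1 : FH.S_H1) (H2 : FH.S_H2) (HO : FH.S_HO)
    (L1 : FH.S_L1) (L3 : FH.S_L3) (r : Rt Γ η c1 c2 l1 l2) (hN : NJ Γ Set.univ)
    (H : FW.H1 Γ η (l1 0) h) (all : ∀ u ∈ Pa Γ η (l1 0), u ∈ LL Γ (rais h (l1 0)) 1) :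
    ∃ c, Col1 Γ ∅ c := by
  have a1 := r.anc
  have a2 : Anc Γ η (l1 0) (l2 (-1)) (l2 (-2)) := r.e ▸ r.symm.anc
  obtain ⟨z, p, g, -, a, T⟩ := r.sink (v := l1 0) ⟨_, a1⟩
  obtain ⟨w, W⟩ := T.wp
  have hU := (H.wp a W).uw ⟨z.1⟩
  have C : CW Γ η h w (l1 0) (l1 (-1)) (l2 (-1)) (l1 (-2)) (l2 (-2)) :=
    ⟨H, hU, a1, a2, r.sep _ a1.vu.symm a1.up, fun k => r.sep _ a2.vu.symm k a2.up,
      all _ ⟨_, a1⟩, all _ ⟨_, a2⟩, fun x m => by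
        by_contra n
        obtain ⟨n1, n2⟩ := not_or.1 n
        refine H.two hU r.zne (Ne.symm n1) (Ne.symm n2) ?_
        rintro y (rfl | rfl | rfl)
        exacts [⟨⟨_, a1⟩, all _ ⟨_, a1⟩⟩, ⟨⟨_, a2⟩, all _ ⟨_, a2⟩⟩, ⟨m, all _ m⟩]⟩
  rcases C.two z ⟨p, a⟩ with rfl | rfl
  · exact C.col g1 lz H1 H2 HO L1 L3 hN T
  · exact C.symm.col g1 lz H1 H2 HO L1 L3 hN T

end Pool.Agent.P.MP_08fd93_co.FW
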