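import Pool.Agent.P.MP_08fd93_co.FW.W4
import Pool.Agent.P.MP_08fd93_co.FZ2.Lat4
import Pool.Agent.P.MP_08fd93_co.FP2.R1

/-! Depth two: the root data, anchored neighbours, the second root, the parent map. -/

set_option autoImplicit false

namespace Pool.Agent.P.MP_08fd93_co.FW

open OV FZ FZ2 FP2

variable {J : Type} {Γ : SimpleGraph (Vx J)} {η : ℤ × ℤ →+ ℤ} {v z u p x : Vx J} {g : Vx J → ℤ}
  {c1 c2 : ℤ × ℤ} {l1 l2 : ℤ → Vx J}

/-- The root data in depth two. -/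
structure Rt (Γ : SimpleGraph (Vx J)) (η : ℤ × ℤ →+ ℤ) (c1 c2 : ℤ × ℤ) (l1 l2 : ℤ → Vx J) :
    Prop where
  fine : Fine Γ
  nrm : Nrm (OV.DL Γ)
  ev : ∀ a, Even (η a)
  hη : ∀ a, a ≠ 0 → η a + 2 ≤ (OV.DL Γ a : ℤ)
  h4 : ∀ a, a ≠ 0 → 4 ≤ OV.DL Γ a
  hd : det c1 c2 ≠ 0
  s1 : (OV.DL Γ c1 : ℤ) = η c1 + 2
  s2 : (OV.DL Γ c2 : ℤ) = η c2 + 2
  L1 : FZ2.Ln Γ c1 l1
  L2 : FZ2.Ln Γ c2 l2
  e : l1 0 = l2 0
  dis : ∀ s t, s < 0 → l1 s ≠ l2 t ∨ 0 < t
  sep : ∀ z, Γ.Adj z (l1 0) → Γ.Adj z (l1 (-2)) → ¬ Γ.Adj z (l2 (-2))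

/-- The three depths. -/
theorem root6 [Fintype J] (hJ : Nonempty J) (hG : Good Γ) :
    ∃ η : ℤ × ℤ →+ ℤ, (∀ a, Even (η a)) ∧
      (((∀ a, η a ≤ (OV.DL Γ a : ℤ)) ∧ ∃ c l, c ≠ 0 ∧ FZ2.Ln Γ c l ∧ (OV.DL Γ c : ℤ) = η c) ∨
        ((∀ a, a ≠ 0 → η a + 1 ≤ (OV.DL Γ a : ℤ)) ∧
          ∃ c l, c ≠ 0 ∧ FZ2.Ln Γ c l ∧ (OV.DL Γ c : ℤ) = η c + 1) ∨
        ∃ c1 c2 l1 l2, Rt Γ η c1 c2 l1 l2) := by
  obtain ⟨η, ev, h⟩ := root4 hJ hG
  obtain ⟨hF, hN⟩ := all_Nrm J Γ hJ hG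
  refine ⟨η, ev, h.imp_right (Or.imp_right ?_)⟩
  rintro ⟨h1, h4, a, b, -, -, hd, k1, k2, -⟩
  obtain ⟨c1, c2, l1, l2, m1, m2, m3, m4, m5, m6, m7, m8⟩ := FS.root5 hJ hG h1 hd k1 k2
  exact ⟨c1, c2, l1, l2, hF, hN, ev, h1, h4, m1, m2, m3, m4, m5, m6, m7, m8⟩

theorem Rt.symm (h : Rt Γ η c1 c2 l1 l2) : Rt Γ η c2 c1 l2 l1 := by
  refine ⟨h.fine, h.nrm, h.ev, h.hη, h.h4, fun k => h.hd ?_, h.s2, h.s1, h.L2, h.L1, h.e.symm,
    fun s t hs => ?_, fun z a b c => h.sep z (h.e ▸ a) c b⟩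
  · simp only [det] at k ⊢
    linarith
  · by_contra hc
    obtain ⟨k1, k2⟩ := not_or.1 hc
    have k1 := not_not.1 k1
    rcases lt_or_eq_of_le (not_lt.1 k2) with k | k
    · exact (h.dis t s k).elim (fun m => m k1.symm) (by omega)
    · have := h.L2.geo.dist s 0
      rw [k1, k, h.e, SimpleGraph.dist_self] at this
      omega

theorem Rt.ne0 (h : Rt Γ η c1 c2 l1 l2) : c1 ≠ 0 := by
  rintro rfl
  exact h.hd (by simp [det])

theorem Rt.two (h : Rt Γ η c1 c2 l1 l2) : 2 ≤ η c1 := by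
  have := h.h4 c1 h.ne0
  have := h.s1
  omega

theorem Rt.sl (h : Rt Γ η c1 c2 l1 l2) : Sl Γ η :=
  ⟨h.fine, h.ev, fun x a k => (h.hη a k).trans (by exact_mod_cast PkDNP.dl_le a x),
    fun x a k => (h.h4 a k).trans (PkDNP.dl_le a x)⟩

theorem Rt.adj (h : Rt Γ η c1 c2 l1 l2) (i : ℤ) : Γ.Adj (l1 i) (l1 (i - 1)) := by
  have := h.L1.geo.adj (i - 1)
  rw [sub_add_cancel] at this
  exact this.symm

/-- the point of index `i` below the root is a translate of a point above it -/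
theorem Rt.m (h : Rt Γ η c1 c2 l1 l2) (i : ℤ) : l1 (i - (η c1 + 2)) = tr (-c1) (l1 i) := by
  have := h.L1.per (i - (η c1 + 2))
  rw [h.s1, sub_add_cancel] at this
  rw [this, tr_neg]

theorem Rt.m2 (h : Rt Γ η c1 c2 l1 l2) : l1 (-2) = tr (-c1) (l1 (η c1)) := by
  rw [← h.m]
  congr 1
  ring

/-- `p` anchors the neighbour `u` of `v`. -/
structure Anc (Γ : SimpleGraph (Vx J)) (η : ℤ × ℤ →+ ℤ) (v u p : Vx J) : Prop where
  vu : Γ.Adj v u
  up : Γ.Adj u p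
  pv : p ≠ v
  low : Low Γ η v p

/-- The anchored neighbours of `v`. -/
def Pa (Γ : SimpleGraph (Vx J)) (η : ℤ × ℤ →+ ℤ) (v : Vx J) : Set (Vx J) :=
  {u | ∃ p, Anc Γ η v u p}

theorem Rt.anc (h : Rt Γ η c1 c2 l1 l2) : Anc Γ η (l1 0) (l1 (-1)) (l1 (-2)) := by
  refine ⟨h.adj 0, h.adj (-1), fun k => ?_, -c1, ?_⟩
  · have := h.L1.geo.dist (-2) 0
    rw [k, SimpleGraph.dist_self] at this
    omega
  · have := h.two
    rw [h.m2, h.fine.dist_tr, h.L1.geo.dist, map_neg]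
    omega

theorem Rt.zne (h : Rt Γ η c1 c2 l1 l2) : l1 (-1) ≠ l2 (-1) :=
  (h.dis _ _ (by omega)).resolve_right (by omega)

theorem Rt.pne (h : Rt Γ η c1 c2 l1 l2) : l1 (-2) ≠ l2 (-2) :=
  (h.dis _ _ (by omega)).resolve_right (by omega)

/-- a neighbour that is lowered by another neighbour is anchored -/
theorem Sl.anc_of_low (h : Sl Γ η) (hz : Γ.Adj v z) (hu : Γ.Adj v u) (ne : u ≠ z)
    (l : Low Γ η z u) : u ∈ Pa Γ η v := by
  obtain ⟨a, ha⟩ := l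
  have a0 : a ≠ 0 := by
    rintro rfl
    rw [tr_zero, map_zero] at ha
    exact ne (dist_zero h.fine.pl (show Γ.dist z u = 0 by omega)).symm
  rcases hd : Γ.dist (tr a z) u with _ | m
  · have e := dist_zero h.fine.pl hd
    exact absurd (h.near2 (y := z) (congrArg Prod.fst e).symm hu.symm hz) ne
  · obtain ⟨q, e, hq⟩ := dist_step h.fine.pl hd
    have t := dist_tri h.fine.pl (tr a v) (tr a z) q
    rw [dist_adj (h.fine.inv a _ _ hz), hq] at t
    refine ⟨q, hu, e.symm, ?_, a, by omega⟩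
    rintro rfl
    have := h.back q a0
    omega

/-- an anchored neighbour does not lower its neighbours -/
theorem Sl.not_low (h : Sl Γ η) (e : Γ.Adj z u) : ¬ Low Γ η z u := by
  rintro ⟨a, ha⟩
  by_cases k : a = 0
  · rw [k, tr_zero, map_zero, dist_adj e] at ha
    omega
  · have g := h.back z k
    have t := dist_tri h.fine.pl (tr a z) u z
    rw [dist_adj e.symm] at t
    omega

/-- The second root: an anchored neighbour that lowers no other anchored neighbour. -/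
theorem Sl.tr_of (h : Sl Γ η) (a : Anc Γ η v z p)
    (hz : ∀ u ∈ Pa Γ η v, Low Γ η z u → u = z) : ∃ g, TR Γ η v z p g := by
  obtain ⟨g, hg⟩ := exists_h h.fine h.le (R := {v, z}) (Set.toFinite _) ⟨v, Or.inl rfl⟩ fun _ => 0
  refine ⟨g, h, a.vu, a.up, a.pv, hg, ?_, fun u e ne => ?_⟩
  · obtain ⟨b, hb⟩ := a.low
    have := hg.le (r := v) (Or.inl rfl) b p
    omega
  · obtain ⟨r, hr, b, k⟩ := (hg u).1
    beta_reduce at k
    rcases hr with hr | hr <;> rw [hr] at k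
    · by_cases c : b = 0
      · rw [c, tr_zero, map_zero, dist_adj e] at k
        omega
      · have g1 := h.back v c
        have t := dist_tri h.fine.pl (tr b v) u v
        rw [dist_adj e.symm] at t
        omega
    · by_contra hc
      have l : Low Γ η z u := ⟨b, by omega⟩
      exact ne (hz u (Sl.anc_of_low h a.vu e ne l) l)

/-- the height does not depend on the anchor -/
theorem TR.re (h : TR Γ η v z p g) {q : Vx J} (e : Γ.Adj z q) (ne : q ≠ v) (l : g q ≤ 0) :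
    TR Γ η v z q g := ⟨h.toSl, h.vz, e, ne, h.ht, l, h.nb⟩

theorem TR.not_low (h : TR Γ η v z p g) (e : Γ.Adj v u) (ne : u ≠ z) : ¬ Low Γ η z u := by
  rintro ⟨a, ha⟩
  have := h.ht.le (r := z) (Or.inr rfl) a u
  have := h.nb u e ne
  omega

/-- From every anchored neighbour one reaches a second root by lowering. -/
theorem Rt.sink (h : Rt Γ η c1 c2 l1 l2) (hu : u ∈ Pa Γ η v) :
    ∃ z p g, Low Γ η u z ∧ Anc Γ η v z p ∧ TR Γ η v z p g := by
  obtain ⟨z, ⟨⟨p, a⟩, l⟩, mx⟩ := low_max h.fine h.hη (fun a k => by have := h.h4 a k; omega)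
    (v := v) (A := {x | x ∈ Pa Γ η v ∧ Low Γ η u x}) (fun x ⟨⟨_, a⟩, _⟩ => a.vu)
    ⟨u, hu, Low.refl u⟩
  obtain ⟨g, hg⟩ := Sl.tr_of h.sl a fun x hx k => mx x ⟨hx, l.trans h.fine k⟩ k
  exact ⟨z, p, g, l, a, hg⟩

/-- an anchor has height zero and lies on the line of height zero -/
theorem TR.anc_g (h : TR Γ η v z p g) {q : Vx J} (a : Anc Γ η v u q) : g q ≤ 0 := by
  obtain ⟨b, hb⟩ := a.low
  have := h.ht.le (r := v) (Or.inl rfl) b q
  omega

theorem TR.hp_nk (h : TR Γ η v z p g) (hx : Hp Γ g x) : x ∉ Kt v z := fun k => by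
  obtain ⟨y, e, hy⟩ := hx
  have := h.nolow k e
  omega

theorem TR.anc_nk (h : TR Γ η v z p g) {q : Vx J} (a : Anc Γ η v u q) : q ∉ Kt v z := fun k => by
  obtain ⟨b, hb⟩ := a.low
  obtain ⟨c, rfl | rfl⟩ := kt_ex k
  · exact a.pv (h.toSl.near2 rfl a.up.symm a.vu.symm)
  · have e := h.toSl.near3 (x := tr c z) (y := z) rfl a.up.symm a.vu.symm h.vz
    rw [e] at hb
    by_cases k : b = 0
    · rw [k, tr_zero, map_zero, dist_adj h.vz] at hb
      omega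
    · have g1 := h.toSl.back v k
      have t := dist_tri h.fine.pl (tr b v) z v
      rw [dist_adj h.vz.symm] at t
      omega

/-- a vertex of height at most zero off the roots next to a neighbour of `v` lies on the line of
height zero -/
theorem TR.low_row [Fintype J] (h : TR Γ η v z p g) {w : ℤ × ℤ} (hU : UW Γ η (rz v z g) w)
    {q : Vx J} (e : Γ.Adj v u) (e' : Γ.Adj u q) (l : g q ≤ 0) (k : q ∉ Kt v z) :
    q ∈ LL Γ (rz v z g) 0 :=
  hU.lan 1 u (hU.cl 1 v h.vu u e (h.fnb e).ge) q e' (by rw [rz_n k]; omega)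

theorem TR.anc_row [Fintype J] (h : TR Γ η v z p g) {w : ℤ × ℤ} (hU : UW Γ η (rz v z g) w)
    {q : Vx J} (a : Anc Γ η v u q) : q ∈ LL Γ (rz v z g) 0 :=
  TR.low_row h hU a.vu a.up (TR.anc_g h a) (TR.anc_nk h a)

/-- the heights along a line through the root -/
theorem Rt.ht (h : Rt Γ η c1 c2 l1 l2) (t : TR Γ η (l1 0) z p g) {i : ℤ} (h1 : 0 ≤ i)
    (h2 : i ≤ η c1) : g (l1 i) = i := by
  by_cases c : z = l1 (-1)
  · simpa using ht_two h.fine h.hη h.L1 h.s1 t.vz.symm (Or.inl c) rfl t.ht h1 h2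
  · simpa using ht_two' h.fine h.hη h.L1 h.s1 (TR.not_low t (h.adj 0) (Ne.symm c)) rfl t.ht h1
      (by omega)

theorem Rt.up (h : Rt Γ η c1 c2 l1 l2) (t : TR Γ η (l1 0) z p g) :
    Up Γ η (fun x => g x - 1) c1 l1 :=
  ⟨h.L1, h.s1, by have := h.two; omega, fun i h1 h2 => by rw [h.ht t (by omega) h2]⟩

/-- the successor of the root on a line is a child -/
theorem Rt.hp1 (h : Rt Γ η c1 c2 l1 l2) (t : TR Γ η (l1 0) z p g) : Hp Γ g (l1 1) := by
  have := h.two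
  exact ⟨l1 0, h.adj 1, by rw [h.ht t le_rfl (by omega), h.ht t (by omega) (by omega)]; rfl⟩

/-- The chain from `p` runs through vertices with a parent off the roots and ends in `q`. -/
def Ch2 (Γ : SimpleGraph (Vx J)) (v z : Vx J) (g : Vx J → ℤ) (an : Vx J → Vx J) (p : Vx J)
    (M : ℕ) (q : Vx J) : Prop := (∀ m, m < M → Rp Γ v z g (an^[m] p)) ∧ an^[M] p = q

/-- An equivariant choice of parents off the roots under which the chains of the two anchors end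
in translates of independent classes. -/
theorem Rt.an2 (h : Rt Γ η c1 c2 l1 l2) (t : TR Γ η (l1 0) z p g) :
    ∃ an : Vx J → Vx J, (∀ a x, an (tr a x) = tr a (an x)) ∧
      (∀ x, Rp Γ (l1 0) z g x → Γ.Adj x (an x) ∧ g (an x) = g x - 1 ∧ an x ∉ Kt (l1 0) z) ∧
      ∃ a2 M1 M2 y, det c1 a2 ≠ 0 ∧ Ch2 Γ (l1 0) z g an (l1 (-2)) M1 (tr (-c1) (l1 1)) ∧
        Ch2 Γ (l1 0) z g an (l2 (-2)) M2 (tr (-a2) y) ∧ (y = l1 1 ∨ y = l2 1) := by
  classical
  have t' : TR Γ η (l2 0) z p g := h.e ▸ t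
  obtain ⟨an, eq, han, a2, M1, M2, y, hd, k1, k2, hy⟩ := exists_an2 h.fine h.nrm h.hη
    (f := fun x => g x - 1) (fun a x => by rw [t.per]; ring) h.hd (h.up t) (h.symm.up t') h.dis
  obtain ⟨a0, eq0, h0⟩ := t.an_ex
  have hp : ∀ x, Hp Γ (fun x => g x - 1) x ↔ Hp Γ g x := fun x =>
    exists_congr fun y => and_congr_right fun _ => by
      beta_reduce
      omega
  have key : ∀ q M r, Hp Γ g r → Ch Γ (fun x => g x - 1) an q M r →
      Ch2 Γ (l1 0) z g (fun x => if an x ∈ Kt (l1 0) z then a0 x else an x) q M r := by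
    intro q M r hr k
    have nk : ∀ m, m < M → an (an^[m] q) ∉ Kt (l1 0) z := fun m hm => by
      rw [← Function.iterate_succ_apply' an]
      refine TR.hp_nk t ?_
      rcases lt_or_eq_of_le (Nat.succ_le_of_lt hm) with c | c
      · exact (hp _).1 (k.1 _ c)
      · rwa [c, k.2]
    have it : ∀ m, m ≤ M →
        (fun x => if an x ∈ Kt (l1 0) z then a0 x else an x)^[m] q = an^[m] q := by
      intro m
      induction m with
      | zero => exact fun _ => rfl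
      | succ m ih =>
        intro hm
        rw [Function.iterate_succ_apply', Function.iterate_succ_apply', ih (by omega)]
        exact if_neg (nk m (by omega))
    refine ⟨fun m hm => ?_, by rw [it M le_rfl, k.2]⟩
    rw [it m hm.le]
    obtain ⟨e1, e2⟩ := han _ (k.1 m hm)
    exact ⟨_, e1, by omega, nk m hm⟩
  refine ⟨fun x => if an x ∈ Kt (l1 0) z then a0 x else an x, fun a x => ?_, fun x hx => ?_, a2,
    M1, M2, y, hd, key _ _ _ ((Hp.tr h.fine t.per _ _).2 (h.hp1 t)) k1,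
    key _ _ _ ((Hp.tr h.fine t.per _ _).2 ?_) k2, hy⟩
  · simp only [eq, eq0, kt_tr]
    split_ifs <;> rfl
  · by_cases c : an x ∈ Kt (l1 0) z
    · simp only [if_pos c]
      exact h0 x hx
    · simp only [if_neg c]
      obtain ⟨q, e, hq, -⟩ := hx
      obtain ⟨e1, e2⟩ := han x ((hp x).2 ⟨q, e, hq⟩)
      exact ⟨e1, by omega, c⟩
  · rcases hy with rfl | rfl
    exacts [h.hp1 t, h.symm.hp1 t']

end Pool.Agent.P.MP_08fd93_co.FW
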