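import Pool.Agent.P.MP_08fd93_co.FW.T1
import Pool.Agent.P.MP_08fd93_co.FZ.R1
import Pool.Agent.P.MP_08fd93_co.FP2.R2

/-! Depth two: the height of the single root; second roots off its level lines do not change the
lines; the mirror image of a system of lines. -/

set_option autoImplicit false

namespace Pool.Agent.P.MP_08fd93_co.FW

open OV FZ FZ2 FP2

variable {J : Type} {Γ : SimpleGraph (Vx J)} {η : ℤ × ℤ →+ ℤ} {v z u p x : Vx J}
  {f f' g h : Vx J → ℤ} {w : ℤ × ℤ} {l : ℤ → ℤ → Vx J} {ρ : Vx J → ℤ} {nn : ℤ → ℤ}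
  {an an' : Vx J → Vx J} {j : ℤ}

theorem uu_mono (e : ∀ x, f x ≤ f' x) (hx : x ∈ UU Γ f j) : x ∈ UU Γ f' j := fun t =>
  let ⟨y, hy, c⟩ := hx t
  ⟨y, hy.trans (e y), c.up fun u hu => le_trans hu (e u)⟩

theorem ll_congr (e : UU Γ f' = UU Γ f) : LL Γ f' = LL Γ f := by
  funext j
  unfold LL
  rw [e]

theorem st_congr (e : UU Γ f' = UU Γ f) : OV.ST Γ f' = OV.ST Γ f := by
  funext j
  unfold OV.ST
  rw [e, ll_congr e]

/-- the lines depend only on the upper parts -/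
theorem rows_congr (hR : Rows ⟨Γ, η, f, an, w, l, ρ, nn⟩) (wp : WP Γ η f' w) (uw : UW Γ η f' w)
    (e : UU Γ f' = UU Γ f) : Rows ⟨Γ, η, f', an', w, l, ρ, nn⟩ := by
  have e1 := ll_congr e
  have e2 : BL Γ f' = BL Γ f := by
    funext j
    unfold BL
    rw [e, e1]
  refine ⟨wp, uw, hR.nj, fun j x => ?_, hR.rho, hR.adj, hR.lw, hR.n2, hR.ltr, fun j => ?_,
    fun j => ?_⟩
  · show x ∈ LL Γ f' j ↔ _
    rw [e1]
    exact hR.mem j x
  · show IsConn Γ (BL Γ f' j)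
    rw [e2]
    exact hR.blc j
  · show LL Γ f' j ⊆ Nb Γ (BL Γ f' j)
    rw [e1, e2]
    exact hR.tch j

theorem wp_neg (hP : WP Γ η f w) : WP Γ η f (-w) :=
  ⟨hP.fine, hP.ev, hP.per, hP.lip, neg_ne_zero.2 hP.w0, fun a => (hP.ker a).trans
    ⟨fun ⟨k, e⟩ => ⟨-k, by rw [e]; simp⟩, fun ⟨k, e⟩ => ⟨-k, by rw [e]; simp⟩⟩, hP.gen, hP.dn⟩

theorem uw_neg (hU : UW Γ η f w) : UW Γ η f (-w) :=
  ⟨hU.ge, hU.cl, hU.conn, hU.low, hU.big, hU.mono, hU.utr, hU.ltr, hU.str, hU.lf, hU.lu, hU.bd,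
    hU.lan, hU.lne, hU.lowne, fun a b =>
      let ⟨A, h1, h2⟩ := hU.band a b
      ⟨A, h1, fun x k1 k2 => let ⟨k, e⟩ := h2 x k1 k2; ⟨-k, by simpa using e⟩⟩⟩

/-- the mirror image of a system of lines -/
theorem rows_mir (hR : Rows ⟨Γ, η, f, an, w, l, ρ, nn⟩) :
    Rows ⟨Γ, η, f, an', -w, fun j i => l j (-i), fun x => -ρ x, nn⟩ := by
  refine ⟨wp_neg hR.wp, uw_neg hR.uw, hR.nj, fun j x => (hR.mem j x).trans ?_, fun j i => ?_,
    fun j i i' => (hR.adj j (-i) (-i')).trans (by omega), fun j i => ?_, hR.n2, fun a j => ?_,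
    hR.blc, hR.tch⟩
  · exact ⟨fun ⟨i, e⟩ => ⟨-i, by rw [e]; simp⟩, fun ⟨i, e⟩ => ⟨-i, e⟩⟩
  · have := hR.rho j (-i)
    show -ρ (l j (-i)) = i
    change ρ (l j (-i)) = -i at this
    omega
  · have := hR.lw j (-(i + nn j))
    change tr w (l j _) = l j (-(i + nn j) + nn j) at this
    show tr (-w) (l j (-i)) = l j (-(i + nn j))
    rw [show -i = -(i + nn j) + nn j by ring, ← this, tr_neg]
  · obtain ⟨κ, hκ⟩ := hR.ltr a j
    refine ⟨-κ, fun i => ?_⟩
    have := hκ (-i)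
    show tr a (l j (-i)) = l (j + η a) (-(i + -κ))
    rw [show -(i + -κ) = -i + κ by ring]
    exact this

/-- The height of the single root `v`. -/
structure H1 (Γ : SimpleGraph (Vx J)) (η : ℤ × ℤ →+ ℤ) (v : Vx J) (h : Vx J → ℤ) : Prop
    extends Sl Γ η where
  ht : IsH Γ η {v} (fun _ => 0) h

theorem Sl.h1 (s : Sl Γ η) (v : Vx J) : ∃ h, H1 Γ η v h :=
  let ⟨h, k⟩ := exists_h s.fine s.le (R := {v}) (Set.toFinite _) ⟨v, rfl⟩ fun _ => 0
  ⟨h, s, k⟩

theorem H1.per (H : H1 Γ η v h) (a : ℤ × ℤ) (x : Vx J) : h (tr a x) = h x + η a :=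
  H.ht.per H.fine a x

theorem H1.le (H : H1 Γ η v h) (a : ℤ × ℤ) (x : Vx J) : h x ≤ η a + Γ.dist (tr a v) x := by
  simpa using H.ht.le (r := v) rfl a x

theorem H1.wit (H : H1 Γ η v h) (x : Vx J) : ∃ a, h x = η a + Γ.dist (tr a v) x := by
  obtain ⟨r, hr, a, e⟩ := (H.ht x).1
  rw [hr] at e
  exact ⟨a, by simpa using e⟩

theorem H1.lip (H : H1 Γ η v h) {x y : Vx J} (e : Γ.Adj x y) : h y ≤ h x + 1 :=
  H.ht.lip H.fine x y e

theorem H1.hv (H : H1 Γ η v h) : h v = 0 := by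
  obtain ⟨a, e⟩ := H.wit v
  have := H.le 0 v
  rw [tr_zero, map_zero, SimpleGraph.dist_self] at this
  by_cases c : a = 0
  · rw [c, tr_zero, map_zero, SimpleGraph.dist_self] at e
    simpa using e
  · have := H.toSl.back v c
    omega

theorem H1.nb (H : H1 Γ η v h) (e : Γ.Adj v u) : h u = 1 := by
  obtain ⟨a, k⟩ := H.wit u
  have h1 := H.lip e
  rw [H.hv] at h1
  by_cases c : a = 0
  · rw [c, tr_zero, map_zero, dist_adj e] at k
    simpa using k
  · have := H.toSl.back v c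
    have t := dist_tri H.fine.pl (tr a v) u v
    rw [dist_adj e.symm] at t
    omega

theorem H1.low (H : H1 Γ η v h) : Low Γ η v x ↔ h x ≤ 0 :=
  ⟨fun ⟨a, k⟩ => (H.le a x).trans k, fun k => let ⟨a, e⟩ := H.wit x; ⟨a, e ▸ k⟩⟩

theorem H1.knb (H : H1 Γ η v h) (k : x.1 = v.1) {y : Vx J} (e : Γ.Adj x y) :
    h y = h x + 1 ∧ y.1 ≠ v.1 := by
  refine ⟨?_, fun c => H.toSl.nl _ _ e (k.trans c.symm)⟩
  obtain ⟨a, rfl⟩ : ∃ a, x = tr a v := ⟨_, eq_tr k.symm⟩
  obtain ⟨y, rfl⟩ := FN.tr_surj a y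
  rw [H.per, H.per, H.nb ((H.fine.adj_tr a _ _).1 e), H.hv]
  ring

theorem H1.fper (H : H1 Γ η v h) (a : ℤ × ℤ) (x : Vx J) :
    rais h v (tr a x) = rais h v x + η a := by
  by_cases c : x.1 = v.1
  · rw [rais_k c, rais_k (x := tr a x) c, H.per]
    ring
  · rw [rais_n c, rais_n (x := tr a x) c, H.per]

theorem H1.flip (H : H1 Γ η v h) {x y : Vx J} (e : Γ.Adj x y) : rais h v y ≤ rais h v x + 1 := by
  have := rais_ge (f := h) (v := v) x
  by_cases c : y.1 = v.1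
  · have := (H.knb c e.symm).1
    rw [rais_k c]
    omega
  · rw [rais_n c]
    have := H.lip e
    omega

theorem H1.fv (H : H1 Γ η v h) : rais h v v = 1 := by
  rw [rais_k rfl, H.hv]
  rfl

theorem H1.fnb (H : H1 Γ η v h) (e : Γ.Adj v u) : rais h v u = 1 := by
  rw [rais_n (H.knb rfl e).2, H.nb e]

theorem H1.anc_nk (H : H1 Γ η v h) (a : Anc Γ η v u p) : p.1 ≠ v.1 := fun k =>
  a.pv (H.toSl.near2 k a.up.symm a.vu.symm)

theorem H1.fanc (H : H1 Γ η v h) (a : Anc Γ η v u p) : rais h v p = 0 := by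
  have h1 := H.low.1 a.low
  have h2 := H.lip a.up.symm
  rw [H.nb a.vu] at h2
  rw [rais_n (H.anc_nk a)]
  omega

theorem H1.wp (H : H1 Γ η v h) (a : Anc Γ η v u p) (hP : WP Γ η f w) : WP Γ η (rais h v) w := by
  have key : ∀ b, Conn Γ {y | rais h v y ≤ 1 + η b} (tr b v) (tr b p) := fun b => by
    have m1 : tr b v ∈ {y | rais h v y ≤ 1 + η b} := by
      show rais h v _ ≤ _
      rw [H.fper, H.fv]
    have m2 : tr b u ∈ {y | rais h v y ≤ 1 + η b} := by
      show rais h v _ ≤ _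
      rw [H.fper, H.fnb a.vu]
    refine (Conn.step m1 m2 (H.fine.inv b _ _ a.vu)).snoc m2 ?_ (H.fine.inv b _ _ a.up)
    show rais h v _ ≤ _
    rw [H.fper, H.fanc a]
    omega
  have lo : ∀ b, rais h v (tr b p) < 1 + η b := fun b => by
    rw [H.fper, H.fanc a]
    omega
  refine ⟨H.fine, H.ev, H.fper, fun _ _ => H.flip, hP.w0, hP.ker, hP.gen, fun x => ?_⟩
  by_cases c : x.1 = v.1
  · obtain ⟨b, rfl⟩ : ∃ b, x = tr b v := ⟨_, eq_tr c.symm⟩
    rw [H.fper, H.fv]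
    exact ⟨_, lo b, key b⟩
  · obtain ⟨q, e, hq⟩ := (H.ht.par H.fine x).resolve_right (by
      rintro ⟨r, hr, b, rfl, -⟩
      rw [hr] at c
      exact c rfl)
    by_cases c' : q.1 = v.1
    · obtain ⟨b, rfl⟩ : ∃ b, q = tr b v := ⟨_, eq_tr c'.symm⟩
      have e1 : rais h v x = 1 + η b := by
        rw [H.per, H.hv] at hq
        rw [rais_n c]
        omega
      rw [e1]
      refine ⟨_, lo b, (Conn.step (A := {y | rais h v y ≤ 1 + η b}) e1.le ?_ e).trans (key b)⟩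
      show rais h v _ ≤ _
      rw [H.fper, H.fv]
    · have e1 : rais h v q < rais h v x := by
        rw [rais_n c, rais_n c']
        omega
      exact ⟨q, e1, Conn.step (le_refl (rais h v x)) e1.le e⟩

theorem TR.g_le (t : TR Γ η v z p g) (H : H1 Γ η v h) (x : Vx J) : g x ≤ h x := by
  obtain ⟨a, e⟩ := H.wit x
  have := t.ht.le (r := v) (Or.inl rfl) a x
  omega

theorem TR.g_wit (t : TR Γ η v z p g) (H : H1 Γ η v h) (x : Vx J) :
    g x = h x ∨ ∃ a, g x = η a + Γ.dist (tr a z) x := by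
  obtain ⟨r, hr, a, e⟩ := (t.ht x).1
  beta_reduce at e
  rcases hr with hr | hr <;> rw [hr] at e
  · have := H.le a x
    have := TR.g_le t H x
    exact Or.inl (by omega)
  · exact Or.inr ⟨a, by omega⟩

theorem TR.g_ge (t : TR Γ η v z p g) (H : H1 Γ η v h) (x : Vx J) : h x ≤ g x + 1 := by
  rcases TR.g_wit t H x with e | ⟨a, e⟩
  · omega
  · have := H.le a x
    have k := dist_tri t.fine.pl (tr a v) (tr a z) x
    rw [dist_adj (t.fine.inv a _ _ t.vz)] at k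
    omega

/-- on the roots the two raised heights agree -/
theorem TR.f_k (t : TR Γ η v z p g) (H : H1 Γ η v h) (k : x ∈ Kt v z) :
    rz v z g x = rais h v x := by
  obtain ⟨a, rfl | rfl⟩ := kt_ex k
  · rw [t.fper, t.fv, H.fper, H.fv]
  · rw [t.fper, t.fz, H.fper, H.fnb t.vz]

theorem TR.f_le (t : TR Γ η v z p g) (H : H1 Γ η v h) (x : Vx J) : rz v z g x ≤ rais h v x := by
  by_cases k : x ∈ Kt v z
  · exact (TR.f_k t H k).le
  · rw [rz_n k]
    exact (TR.g_le t H x).trans (rais_ge x)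

theorem TR.f_ge (t : TR Γ η v z p g) (H : H1 Γ η v h) (x : Vx J) :
    rais h v x ≤ rz v z g x + 1 := by
  by_cases k : x ∈ Kt v z
  · rw [TR.f_k t H k]
    omega
  · rw [rz_n k, rais_n fun c => k (Or.inl c)]
    exact TR.g_ge t H x

theorem TR.wp' (t : TR Γ η v z p g) (hP : WP Γ η f w) : WP Γ η (rz v z g) w :=
  ⟨t.fine, t.ev, t.fper, fun _ _ => t.flip, hP.w0, hP.ker, hP.gen, t.dn⟩

theorem TR.uu_le (t : TR Γ η v z p g) (H : H1 Γ η v h) (hx : x ∈ UU Γ (rz v z g) j) :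
    x ∈ UU Γ (rais h v) j := uu_mono (TR.f_le t H) hx

/-- a neighbour of the root off the level line lowers nothing in the upper parts -/
theorem H1.off (H : H1 Γ η v h) (hU : UW Γ η (rais h v) w) (e : Γ.Adj v z)
    (o : z ∉ LL Γ (rais h v) 1) (a : ℤ × ℤ) (n : ℕ) : ∀ j x, x ∈ UU Γ (rais h v) j →
      x ≠ tr a z → Γ.dist (tr a z) x = n → j ≤ η a + n := by
  induction n with
  | zero => exact fun j x _ ne d => absurd (dist_zero H.fine.pl d).symm ne
  | succ n ih =>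
    intro j x hx _ d
    obtain ⟨y, ey, dy⟩ := dist_step H.fine.pl d
    by_cases c : y = tr a z
    · by_contra hc
      have fz : rais h v y = 1 + η a := by rw [c, H.fper, H.fnb e]
      have m := hU.lan j x hx y ey.symm (by omega)
      have := hU.lf _ _ m
      rw [c, show j - 1 = 1 + η a by omega, hU.ltr] at m
      exact o m
    · have m : y ∈ UU Γ (rais h v) (j - 1) :=
        (hU.bd j x hx y ey.symm).elim (fun k => hU.mono _ _ (by omega) k) fun k => hU.lu _ k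
      have := ih (j - 1) y m c dy
      push_cast
      omega

/-- An anchored neighbour off the level line is a second root and leaves the upper parts. -/
theorem H1.tr_off (H : H1 Γ η v h) (hU : UW Γ η (rais h v) w) (vu : v ∈ UU Γ (rais h v) 1)
    (a : Anc Γ η v z p) (o : z ∉ LL Γ (rais h v) 1) :
    ∃ g, TR Γ η v z p g ∧ UU Γ (rz v z g) = UU Γ (rais h v) ∧
      ∀ j, ∀ x ∈ LL Γ (rais h v) j, g x = h x := by
  obtain ⟨g, t⟩ := Sl.tr_of H.toSl a fun u ⟨_, b⟩ ⟨c, l⟩ => by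
    by_contra ne
    have := H.off hU a.vu o c _ 1 u (hU.cl 1 v vu u b.vu (H.fnb b.vu).ge)
      (fun k => ne (H.toSl.near2 (by rw [k]; rfl) b.vu.symm a.vu)) rfl
    omega
  have key : ∀ j, ∀ x ∈ UU Γ (rais h v) j, j ≤ rz v z g x := fun j x hx => by
    have h1 := hU.ge j x hx
    by_cases k : x ∈ Kt v z
    · rwa [TR.f_k t H k]
    · rw [rais_n fun c => k (Or.inl c)] at h1
      rw [rz_n k]
      rcases TR.g_wit t H x with e | ⟨c, e⟩
      · omega
      · have := H.off hU a.vu o c _ j x hx (fun m => k (m ▸ kt_z c)) rfl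
        omega
  refine ⟨g, t, funext fun j => Set.Subset.antisymm (fun x hx => TR.uu_le t H hx)
    fun x hx m => ?_, fun j x hx => ?_⟩
  · obtain ⟨y, hy, c⟩ := hx (m + 1)
    refine ⟨y, by have := TR.f_ge t H y; omega, c.sub fun u hu => key j u ?_⟩
    exact hu.ind hx fun s t _ ht e k => hU.cl j s k t e ht
  · have h1 := key j x (hU.lu j hx)
    have h2 := hU.lf j x hx
    have h3 := TR.g_le t H x
    have h4 := TR.f_le t H x
    by_cases k : x ∈ Kt v z
    · exfalso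
      obtain ⟨c, rfl | rfl⟩ := kt_ex k
      · obtain ⟨y, hy, e⟩ := hx.1
        have := hU.ge _ _ hy
        obtain ⟨y, rfl⟩ := FN.tr_surj c y
        rw [H.fper, H.fnb ((H.fine.adj_tr c _ _).1 e)] at this
        rw [H.fper, H.fv] at h2
        omega
      · rw [H.fper, H.fnb a.vu] at h2
        rw [← h2, hU.ltr] at hx
        exact o hx
    · rw [rz_n k] at h1
      rw [rais_n fun c => k (Or.inl c)] at h2
      omega

end Pool.Agent.P.MP_08fd93_co.FW
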