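import Pool.Agent.P.MP_08fd93_co.FW.T2
import Pool.Agent.P.MP_08fd93_co.FP2.R3

/-! Depth two: the neighbourhood of the tail in a frame with two roots. -/

set_option autoImplicit false

namespace Pool.Agent.P.MP_08fd93_co.FW

open OV FZ FP2

variable {J : Type} {G G' : TD J} {v z u p q t x y s s' L R L' R' : Vx J} {g g' : Vx J → ℤ} {j : ℤ}

/-- A frame with the tail `v`, `z`; `L` and `R` name the top edges over the feet of `z`. -/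
structure PF (G : TD J) (v z : Vx J) (g : Vx J → ℤ) (L R : Vx J) : Prop where
  rt : ∃ p, TR G.Γ G.η v z p g
  an2 : An2 G.Γ v z g G.an
  fr : Fr2 G.Γ G.η v z g G.an G
  L1 : L ∈ G.L 1
  R1 : R ∈ G.L 1
  iA : IsA G L
  iD : IsD G R
  nL : G.nk (G.nx L) = z
  nR : G.nk R = z

theorem last_ex (h : Rows G.toFD) (hs : s ∈ G.L j) (hs' : s' ∈ G.L j) {φ : Vx J → Vx J}
    (l : G.ρ s ≤ G.ρ s') (ne : φ s ≠ φ s') :
    (∃ e ∈ G.L j, φ e = φ s ∧ φ (G.nx e) ≠ φ s) ∧ ∃ e ∈ G.L j, φ e ≠ φ s' ∧ φ (G.nx e) = φ s' := by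
  have key : ∀ P : Vx J → Prop, P s → ¬ P s' → ∃ e ∈ G.L j, P e ∧ ¬ P (G.nx e) := by
    intro P a b
    by_contra c
    have : ∀ n : ℕ, P (G.l j (G.ρ s + n)) := fun n => by
      induction n with
      | zero => simpa [h.l_rho hs] using a
      | succ n ih =>
        by_contra k
        refine c ⟨_, h.l_mem _ _, ih, ?_⟩
        rwa [h.nx_l, show G.ρ s + n + 1 = G.ρ s + (n + 1 : ℕ) by push_cast; ring]
    have := this (G.ρ s' - G.ρ s).toNat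
    rw [show G.ρ s + ((G.ρ s' - G.ρ s).toNat : ℤ) = G.ρ s' by omega, h.l_rho hs'] at this
    exact b this
  obtain ⟨e, e1, e2, e3⟩ := key (fun x => φ x ≠ φ s') ne (not_not.2 rfl)
  exact ⟨key (fun x => φ x = φ s) rfl ne.symm, e, e1, e2, not_not.1 e3⟩

theorem pf_ex (T : TR G.Γ G.η v z p g) (A : An2 G.Γ v z g G.an) (H : Fr2 G.Γ G.η v z g G.an G) :
    ∃ L R, PF G v z g L R := by
  have h := H.tf
  have hk : z ∈ G.V := H.eV ▸ Or.inr rfl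
  have fz : G.f z = 1 := H.ef ▸ T.fz
  obtain ⟨c1, -, c2⟩ := h.vc z hk
  rw [fz] at c1
  have c3 := (h.ct_md c2).symm.trans H.mz
  have c4 := h.ct_v c2
  have R := h.toRows
  obtain ⟨t, t1, -, t2, t3⟩ := h.far_hi 1 (max (G.ρ (G.ch z)) (G.ρ (G.xl z)))
  obtain ⟨⟨y, y1, y4, y5⟩, -⟩ := last_ex R (φ := G.nk) c1 t1 (by omega) fun r => by
    rw [← (h.nk_xx r).1, ← (h.ct_x c2).1] at t3
    omega
  obtain ⟨t, t1, -, t2, t3⟩ := h.far_lo 1 (min (G.ρ (G.ch z)) (G.ρ (G.xr z)))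
  obtain ⟨-, x, x1, x4, x5⟩ := last_ex R (φ := G.nk) t1 c1 (by omega) fun r => by
    rw [(h.nk_xx r).2, ← (h.ct_x c2).2] at t3
    omega
  exact ⟨x, y, ⟨p, T⟩, A, H, x1, y1, ⟨R.la x1, (h.nk_same x5).2 c4, x5 ▸ x4⟩,
    ⟨R.la y1, (h.nk_same y4).2 c4, y4 ▸ y5.symm⟩, x5.trans c3, y4.trans c3⟩

section

variable (h : PF G v z g L R)
include h

theorem PF.tf : TFrm G := h.fr.tf

theorem PF.rows : Rows G.toFD := h.tf.toRows

theorem PF.pr (x : Vx J) : x ∈ G.Pr := h.fr.eP ▸ trivial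

theorem PF.sl : FP2.Sl G.Γ G.η := let ⟨_, t⟩ := h.rt; t.toSl

theorem PF.vz : G.Γ.Adj v z := let ⟨_, t⟩ := h.rt; t.vz

theorem PF.eV (x : Vx J) : x ∈ G.V ↔ x ∈ Kt v z := by rw [h.fr.eV]

theorem PF.vV : v ∈ G.V := (h.eV v).2 (Or.inl rfl)

theorem PF.zV : z ∈ G.V := (h.eV z).2 (Or.inr rfl)

theorem PF.uw : UW G.Γ G.η (rz v z g) G.w := h.fr.ef ▸ h.rows.uw

theorem PF.eL (j : ℤ) : G.L j = LL G.Γ (rz v z g) j := by rw [← h.fr.ef]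

theorem PF.fv : G.f v = 1 := let ⟨_, t⟩ := h.rt; h.fr.ef ▸ t.fv

theorem PF.fz : G.f z = 1 := let ⟨_, t⟩ := h.rt; h.fr.ef ▸ t.fz

theorem PF.fnb (e : G.Γ.Adj v x) : G.f x = 1 := let ⟨_, t⟩ := h.rt; h.fr.ef ▸ t.fnb e

theorem PF.kv (e : G.Γ.Adj v x) (hx : x ∈ G.V) : x = z :=
  let ⟨_, t⟩ := h.rt; t.kv e ((h.eV x).1 hx)

theorem PF.hv : G.md v ≠ v := h.fr.mv ▸ h.vz.ne'

theorem PF.md_v (c : ℤ × ℤ) : G.md (tr c v) = tr c z := by rw [(h.tf.xtr c v).2.2.2, h.fr.mv]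

theorem PF.md_z (c : ℤ × ℤ) : G.md (tr c z) = tr c z := by rw [(h.tf.xtr c z).2.2.2, h.fr.mz]

theorem PF.xv : G.xl v = G.xl z ∧ G.xr v = G.xr z := h.tf.x_eq (h.fr.mv.trans h.fr.mz.symm)

/-- the parent of a vertex over the neck -/
theorem PF.an_of (e : G.nk s = z) : G.an s = v ∨ G.an s = z := by
  have k : G.an s ∈ G.V := h.tf.nk_v.1 (e ▸ h.zV)
  obtain ⟨c, m | m⟩ := kt_ex ((h.eV _).1 k)
  · rw [TD.nk, m, h.md_v] at e
    rw [m, tr_eq_self e, tr_zero]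
    exact Or.inl rfl
  · rw [TD.nk, m, h.md_z] at e
    exact Or.inr (m.trans e)

theorem PF.nk_v (e : G.an s = v) : G.nk s = z := by rw [TD.nk, e, h.fr.mv]

theorem PF.x_nk (e : G.nk s = z) : G.xl (G.an s) = G.xl z ∧ G.xr (G.an s) = G.xr z :=
  h.tf.x_eq (e.trans h.fr.mz.symm)

theorem PF.feet : (G.xl z ∈ G.L 0 ∧ G.Γ.Adj z (G.xl z)) ∧ (G.xr z ∈ G.L 0 ∧ G.Γ.Adj z (G.xr z)) ∧
    ∀ q ∈ G.L 0, G.Γ.Adj z q → G.ρ (G.xl z) ≤ G.ρ q ∧ G.ρ q ≤ G.ρ (G.xr z) := by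
  have l := h.tf.vl z h.zV
  have r := h.tf.vr z h.zV
  have m := h.tf.vx z h.zV
  rw [h.fz, h.fr.mz] at l r m
  exact ⟨l, r, fun q a b => (m q a b).2⟩

theorem PF.xle : G.ρ (G.xl z) ≤ G.ρ (G.xr z) := (h.feet.2.2 _ h.feet.2.1.1 h.feet.2.1.2).1

theorem PF.pure (hx : x ∈ G.L j) : G.an x ∈ G.V ↔ ∀ y ∈ G.L (j - 1), ¬ G.Γ.Adj x y :=
  ⟨fun c => (h.tf.pure j x hx (h.pr x) c).1, fun c => by_contra fun n =>
    c _ (h.tf.an_l hx (h.pr x) n) (h.tf.aa j x hx (h.pr x)).1⟩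

theorem PF.aa (hx : x ∈ G.L j) : G.Γ.Adj x (G.an x) := (h.tf.aa j x hx (h.pr x)).1

/-- the vertices over the neck -/
theorem PF.rng (ht : t ∈ G.LA) (r : G.nk t = z) :
    t ∈ G.L 1 ∧ G.ρ L < G.ρ t ∧ G.ρ t ≤ G.ρ R := by
  obtain ⟨n1, n2, -⟩ := h.rows.nx_mem h.L1
  obtain ⟨m1, m2, -⟩ := h.rows.nx_mem h.R1
  have k : G.an t ∈ G.V := h.tf.nk_v.1 (r ▸ h.zV)
  have l : t ∈ G.L 1 := by rwa [← h.fz, ← r, h.tf.nk_f ht (h.pr _) k]
  refine ⟨l, not_le.1 fun c => h.iA.2.2 ?_, not_lt.1 fun c => h.iD.2.2 ?_⟩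
  · exact (h.tf.btw_nk l (h.pr _) h.L1 (h.pr _) n1 (h.pr _) c (by omega) (r.trans h.nL.symm)
      k).trans (r.trans h.nL.symm)
  · exact (h.tf.btw_nk h.R1 (h.pr _) m1 (h.pr _) l (h.pr _) (by omega) (by omega)
      (h.nR.trans r.symm) h.iD.2.1).symm

theorem PF.lt : G.ρ L < G.ρ R := (h.rng h.iD.1 h.nR).2.1

theorem PF.nk_of (ht : t ∈ G.L 1) (l : G.ρ L < G.ρ t) (r : G.ρ t ≤ G.ρ R) : G.nk t = z := by
  obtain ⟨n1, n2, -⟩ := h.rows.nx_mem h.L1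
  exact (h.tf.btw_nk n1 (h.pr _) ht (h.pr _) h.R1 (h.pr _) (by omega) r (h.nL.trans h.nR.symm)
    h.iA.2.1).trans h.nL

theorem PF.eqR (hs : s ∈ G.LA) (e : G.nk s = z) (n : G.nk (G.nx s) ≠ z) : s = R := by
  obtain ⟨a, b, c⟩ := h.rng hs e
  obtain ⟨n1, n2, -⟩ := h.rows.nx_mem a
  exact h.rows.inj a h.R1 (by_contra fun k => n (h.nk_of n1 (by omega) (by omega)))

theorem PF.eqL (hs : s ∈ G.LA) (e : G.nk (G.nx s) = z) (n : G.nk s ≠ z) : s = L := by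
  obtain ⟨n1, n2, -⟩ := h.rows.nx_mem hs
  obtain ⟨a, b, c⟩ := h.rng (h.rows.la n1) e
  have l : s ∈ G.L 1 := by
    rw [← h.rows.uw.lf _ _ a, h.rows.uw.lf _ _ n1]
    exact hs
  exact h.rows.inj l h.L1 (by_contra fun k => n (h.nk_of l (by omega) (by omega)))

theorem PF.child : ∃ y ∈ G.L 1, G.an y = v :=
  ⟨G.ch v, h.fv ▸ (h.tf.vc v h.vV).1, h.tf.an_ch h.vV h.hv⟩

theorem PF.ct_v (m : v ∈ G.Ct s) : G.an s = v := h.tf.head m h.hv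

theorem PF.link (ha : x ∈ G.L 1) (hb : y ∈ G.L 1) (ea : G.Γ.Adj v x) (eb : G.Γ.Adj v y)
    (ht : t ∈ G.L 1) (l1 : G.ρ x < G.ρ t) (l2 : G.ρ t < G.ρ y) : G.an t = v := by
  refine h.ct_v (by_contra fun c => ?_)
  exact h.tf.btw ha ht (h.pr t) hb l1 l2 (E := {v})
    (Set.singleton_subset_iff.2 (h.tf.v_st h.vV h.fv)) (Set.finite_singleton v) (isConn_single v)
    ⟨v, rfl, ea.symm⟩ ⟨v, rfl, eb.symm⟩ (Set.disjoint_singleton_left.2 c)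

/-- the neighbours of the root on the line one -/
theorem PF.row_nb (hx : x ∈ G.L 1) (e : G.Γ.Adj v x) : x = L ∨ x = G.nx R ∨ G.nk x = z := by
  obtain ⟨y, y1, y2⟩ := h.child
  obtain ⟨-, a, b⟩ := h.rng (h.rows.la y1) (h.nk_v y2)
  obtain ⟨m1, m2, -⟩ := h.rows.nx_mem h.R1
  have ey : G.Γ.Adj v y := y2 ▸ (h.aa y1).symm
  rcases lt_trichotomy (G.ρ x) (G.ρ L) with c | c | c
  · exact absurd ((h.nk_v (h.link hx y1 e ey h.L1 c a)).trans h.nL.symm) h.iA.2.2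
  · exact Or.inl (h.rows.inj hx h.L1 c)
  rcases lt_trichotomy (G.ρ x) (G.ρ (G.nx R)) with c' | c' | c'
  · exact Or.inr (Or.inr (h.nk_of hx c (by omega)))
  · exact Or.inr (Or.inl (h.rows.inj hx m1 c'))
  · exact absurd (h.nR.trans (h.nk_v (h.link y1 hx ey e m1 (by omega) c')).symm) h.iD.2.2

theorem PF.row_nb' (hx : x ∈ G.L 1) (e : G.Γ.Adj v x) (hp : p ∈ G.L 0) (a : G.Γ.Adj x p) :
    x = L ∨ x = G.nx R :=
  (h.row_nb hx e).imp_right fun k => k.resolve_right fun k =>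
    (h.pure hx).1 (h.tf.nk_v.1 (k ▸ h.zV)) p hp a

/-- a child of the root or of the neck -/
theorem PF.kid (hx : x ∈ G.L 1) (e : G.Γ.Adj v x) (k : G.an x ∈ G.V) : G.nk x = z := by
  obtain ⟨c, m | m⟩ := kt_ex ((h.eV _).1 k)
  · exact h.nk_v (h.sl.near2 (by rw [m]; rfl) (h.aa hx).symm e.symm)
  · have : G.an x = z := h.sl.near3 (by rw [m]; rfl) (h.aa hx).symm e.symm h.vz
    rw [TD.nk, this, h.fr.mz]

/-- every foot of the neck is an anchor -/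
theorem PF.foot (hq : q ∈ G.L 0) (e : G.Γ.Adj z q) : Anc G.Γ G.η v z q := by
  obtain ⟨p, T⟩ := h.rt
  have k : q ∉ Kt v z := fun k => h.tf.l_nv hq ((h.eV q).2 k)
  have f := h.rows.uw.lf _ _ hq
  rw [h.fr.ef, rz_n k] at f
  refine ⟨T.vz, e, fun c => k (Or.inl (by rw [c])), ?_⟩
  obtain ⟨r, hr, a, m⟩ := (T.ht q).1
  beta_reduce at m
  rcases hr with hr | hr <;> rw [hr] at m
  · exact ⟨a, by omega⟩
  · exact absurd ⟨a, by omega⟩ (Sl.not_low T.toSl e)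

theorem PF.anc_row [Fintype J] (a : Anc G.Γ G.η v u p) : p ∈ G.L 0 :=
  let ⟨_, T⟩ := h.rt; h.eL 0 ▸ TR.anc_row T h.uw a

theorem PF.nov (hs : s ∈ G.L j) : G.NoV s (G.nx s) := by
  obtain ⟨n1, n2, -⟩ := h.rows.nx_mem hs
  exact h.tf.nov hs n1 fun t _ _ => by omega

/-- the basic disc -/
theorem PF.disc (hs : s ∈ G.L j) : Disc G.Γ (Bd G s) := by
  obtain ⟨n1, n2, -⟩ := h.rows.nx_mem hs
  exact (h.tf.scell hs (h.pr _) n1 (h.pr _) (by omega) (h.nov hs)).disc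

theorem PF.bI (hs : s ∈ G.L j) : (Bd G s).I = G.Im s (G.nx s) :=
  h.tf.tcell_I hs (h.pr _) (h.rows.nx_mem hs).1 (h.pr _)

theorem PF.top (hs : s ∈ G.L j) (hx : x ∈ G.Top s (G.nx s)) : x = s ∨ x = G.nx s := by
  obtain ⟨n1, n2, -⟩ := h.rows.nx_mem hs
  obtain ⟨a, b, c⟩ := hx
  rw [h.rows.uw.lf _ _ hs] at a
  by_cases k : G.ρ x = G.ρ s
  exacts [Or.inl (h.rows.inj a hs k), Or.inr (h.rows.inj a n1 (by omega))]

theorem PF.im_s (hs : s ∈ G.L j) (hx : x ∈ G.Im s s') : x ∈ G.S j :=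
  h.rows.uw.lf _ _ hs ▸ hx.1

/-- the neighbours of an inner vertex of a basic cell -/
theorem PF.im_nb (hs : s ∈ G.L j) (hx : x ∈ G.Im s (G.nx s)) (e : G.Γ.Adj x y) :
    y ∈ G.Im s (G.nx s) ∨ y ∈ G.Bt s (G.nx s) ∨ y = s ∨ y = G.nx s :=
  (h.tf.in_adj hs (h.pr _) (h.rows.nx_mem hs).1 (h.pr _) (h.nov hs) hx e).imp_right
    (Or.imp_right (h.top hs))

theorem PF.im_top (hs : s ∈ G.L j) (hx : x ∈ G.Im s (G.nx s)) (e : G.Γ.Adj x y) (hy : y ∈ G.L j) :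
    y = s ∨ y = G.nx s := by
  rcases h.im_nb hs hx e with k | k | k
  · exact absurd (Or.inl hy) (h.im_s hs k).1.2
  · rcases h.tf.bt_st hs (h.pr _) (h.rows.nx_mem hs).1 (h.pr _) k with k | k
    · exact absurd k.1 (h.tf.l_nv hy)
    · have := h.rows.uw.lf _ _ k
      have := h.rows.uw.lf _ _ hy
      omega
  · exact k

theorem PF.im_bt (hs : s ∈ G.L j) (hx : x ∈ G.Im s (G.nx s)) (e : G.Γ.Adj x y)
    (hy : y ∈ G.L (j - 1) ∨ y ∈ G.V) : y ∈ G.Bt s (G.nx s) := by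
  have n1 := (h.rows.nx_mem hs).1
  rcases h.im_nb hs hx e with k | k | k
  · exact (hy.elim (fun m => l_not_u' m (h.im_s hs k).1.1) (h.im_s hs k).2).elim
  · exact k
  · have m : y ∈ G.L j := k.elim (fun r => r ▸ hs) fun r => r ▸ n1
    refine (hy.elim (fun c => ?_) (h.tf.l_nv m)).elim
    have := h.rows.uw.lf _ _ c
    have := h.rows.uw.lf _ _ m
    omega

theorem PF.nb_s (e : G.Γ.Adj v u) (ne : u ≠ z) (o : u ∉ G.L 1) : u ∈ G.S 1 := by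
  rcases h.tf.att (h.tf.v_st h.vV h.fv) e with k | k | k | k
  · exact k
  · have := h.rows.uw.lf _ _ k
    have := h.fnb e
    omega
  · exact absurd k o
  · exact absurd (h.kv e k.1) ne

/-- a vertex of the strip that sees the root or the line one lies in a basic cell -/
theorem PF.cell (hu : u ∈ G.S 1) (e : G.Γ.Adj u x) (hx : x = v ∨ x ∈ G.L 1) :
    ∃ s ∈ G.L 1, u ∈ G.Im s (G.nx s) := by
  obtain ⟨s, hs, s', hs', ps, ps', l, c, m⟩ := h.tf.cl_ex (ft := fun s => G.xl (G.an s))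
    (fun _ _ _ => Or.inl rfl) hu
  obtain ⟨n1, n2, -⟩ := h.rows.nx_mem hs
  obtain rfl : s' = G.nx s := h.rows.inj hs' n1 (by have := c _ n1 (h.pr _); omega)
  have no : ∀ t ∈ G.L 1, G.an t ∈ G.V → u ∉ G.Uv (G.nk t) := fun t ht k m => by
    have f := h.tf.nk_f ht (h.pr _) k
    rcases tuv_nb m e with r | r | r
    · exact hx.elim (fun c => r.1.2 (c ▸ h.vV)) fun c => r.1.1.2 (Or.inl (f.symm ▸ c))
    · rcases hx with c | c
      · exact h.hv (by rw [← c, r, TD.nk, h.tf.mm])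
      · exact h.tf.l_nv c (r ▸ h.tf.nk_v.2 k)
    · have := h.rows.uw.lf _ _ r.1
      have : G.f x = 1 := hx.elim (fun c => c ▸ h.fv) (h.rows.uw.lf _ _)
      omega
  rcases h.tf.split hs ps hs' ps' (Or.inl rfl) (Or.inl rfl) m with k | k | k
  exacts [⟨s, hs, k⟩, absurd k.2.2 (no s hs k.1), absurd k.2.2 (no _ hs' k.1)]

theorem PF.bt_row (hs : s ∈ G.L 1) (m : p ∈ G.Bt s (G.nx s)) (hp : p ∈ G.L 0) :
    G.ρ (G.xr (G.an s)) ≤ G.ρ p ∧ G.ρ p ≤ G.ρ (G.xl (G.an (G.nx s))) := by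
  obtain ⟨n1, n2, -⟩ := h.rows.nx_mem hs
  exact (h.tf.bt_line hs (h.pr _) n1 (h.pr _) (by omega) m (h.tf.l_nv hp)).2

/-- the feet of an inner vertex of the left cell -/
theorem PF.imL (hu : u ∈ G.Im L (G.nx L)) (e : G.Γ.Adj u p) (hp : p ∈ G.L 0) :
    G.ρ (G.xr (G.an L)) ≤ G.ρ p ∧ G.ρ p ≤ G.ρ (G.xl z) :=
  (h.x_nk h.nL).1 ▸ h.bt_row h.L1 (h.im_bt h.L1 hu e (Or.inl hp)) hp

theorem PF.imR (hu : u ∈ G.Im R (G.nx R)) (e : G.Γ.Adj u p) (hp : p ∈ G.L 0) :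
    G.ρ (G.xr z) ≤ G.ρ p ∧ G.ρ p ≤ G.ρ (G.xl (G.an (G.nx R))) :=
  (h.x_nk h.nR).2 ▸ h.bt_row h.R1 (h.im_bt h.R1 hu e (Or.inl hp)) hp

theorem PF.bt_v (m : v ∈ G.Bt s s') : G.an s = v ∨ G.an s' = v :=
  (h.tf.bt_v m h.vV).imp h.ct_v h.ct_v

theorem PF.anL (hu : u ∈ G.Im L (G.nx L)) (e : G.Γ.Adj v u) : G.an (G.nx L) = v :=
  (h.bt_v (h.im_bt h.L1 hu e.symm (Or.inr h.vV))).resolve_left fun k =>
    h.iA.2.2 ((h.nk_v k).trans h.nL.symm)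

theorem PF.anR (hu : u ∈ G.Im R (G.nx R)) (e : G.Γ.Adj v u) : G.an R = v :=
  (h.bt_v (h.im_bt h.R1 hu e.symm (Or.inr h.vV))).resolve_right fun k =>
    h.iD.2.2 (h.nR.trans (h.nk_v k).symm)

/-- a neighbour of the root off the line one with a foot lies in one of the two side cells -/
theorem PF.loc (e : G.Γ.Adj v u) (ne : u ≠ z) (o : u ∉ G.L 1) (hp : p ∈ G.L 0)
    (a : G.Γ.Adj u p) : u ∈ G.Im L (G.nx L) ∨ u ∈ G.Im R (G.nx R) := by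
  obtain ⟨s, hs, m⟩ := h.cell (h.nb_s e ne o) e.symm (Or.inl rfl)
  have n : G.nk s ≠ G.nk (G.nx s) := fun n => by
    have k := h.im_bt hs m a (Or.inl hp)
    have c : G.an s ∈ G.V := (h.bt_v (h.im_bt hs m e.symm (Or.inr h.vV))).elim
      (fun r => r ▸ h.vV) fun r => (h.tf.nk_same n).2 (r ▸ h.vV)
    rw [tbt_pair n] at k
    exact h.tf.l_nv hp (k.elim (fun r => r ▸ c) fun r => r ▸ (h.tf.nk_same n).1 c)
  rcases h.bt_v (h.im_bt hs m e.symm (Or.inr h.vV)) with k | k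
  · exact Or.inr (h.eqR (h.rows.la hs) (h.nk_v k) (h.nk_v k ▸ n.symm) ▸ m)
  · exact Or.inl (h.eqL (h.rows.la hs) (h.nk_v k) (h.nk_v k ▸ n) ▸ m)

/-- a common neighbour of the ends of a top edge below it -/
theorem PF.apex (hs : s ∈ G.L 1) (e : G.Γ.Adj v t) (a : G.Γ.Adj t s) (b : G.Γ.Adj t (G.nx s)) :
    t ∉ G.L 1 ∧ (t = z ∨ t ∈ G.Im s (G.nx s)) := by
  obtain ⟨n1, n2, -⟩ := h.rows.nx_mem hs
  have o : t ∉ G.L 1 := fun k => by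
    have := (h.rows.adj_iff k hs).1 a
    have := (h.rows.adj_iff k n1).1 b
    omega
  refine ⟨o, or_iff_not_imp_left.2 fun ne => ?_⟩
  obtain ⟨r, hr, m⟩ := h.cell (h.nb_s e ne o) e.symm (Or.inl rfl)
  obtain ⟨m1, m2, -⟩ := h.rows.nx_mem hr
  have k1 := (h.im_top hr m a hs).imp (congrArg G.ρ) (congrArg G.ρ)
  have k2 := (h.im_top hr m b n1).imp (congrArg G.ρ) (congrArg G.ρ)
  exact h.rows.inj hr hs (by omega) ▸ m

/-- a lower neighbour of the left end of the left edge -/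
theorem PF.ftL (hp : p ∈ G.L 0) (a : G.Γ.Adj L p) : G.ρ p ≤ G.ρ (G.xl z) := by
  obtain ⟨n1, n2, -⟩ := h.rows.nx_mem h.L1
  by_contra c
  refine (h.tf.ncv (h.tf.brg n1 (h.pr _) (Or.inl rfl)) (Set.empty_subset _) Set.finite_empty
    isConn_empty (Or.inr (Or.inl ⟨h.L1, by omega⟩)) (Or.inl ⟨hp, ?_⟩)).1 a
  rw [(h.x_nk h.nL).1]
  omega

theorem PF.ftR (hp : p ∈ G.L 0) (a : G.Γ.Adj (G.nx R) p) : G.ρ (G.xr z) ≤ G.ρ p := by
  obtain ⟨n1, n2, -⟩ := h.rows.nx_mem h.R1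
  by_contra c
  refine (h.tf.ncv (h.tf.brg h.R1 (h.pr _) (Or.inr rfl)) (Set.empty_subset _) Set.finite_empty
    isConn_empty (Or.inl ⟨hp, ?_⟩) (Or.inr (Or.inl ⟨n1, by omega⟩))).1 a.symm
  rw [(h.x_nk h.nR).2]
  omega

/-- if the root sees the left end of the left edge, the right end is a child of the root -/
theorem PF.anLV (e : G.Γ.Adj v L) : G.an (G.nx L) = v := by
  obtain ⟨y, y1, y2⟩ := h.child
  obtain ⟨n1, n2, -⟩ := h.rows.nx_mem h.L1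
  obtain ⟨-, a, -⟩ := h.rng (h.rows.la y1) (h.nk_v y2)
  rcases eq_or_lt_of_le (show G.ρ (G.nx L) ≤ G.ρ y by omega) with c | c
  · rwa [h.rows.inj n1 y1 c]
  · exact h.link h.L1 y1 e (y2 ▸ (h.aa y1).symm) n1 (by omega) c

theorem PF.anRV (e : G.Γ.Adj v (G.nx R)) : G.an R = v := by
  obtain ⟨y, y1, y2⟩ := h.child
  obtain ⟨n1, n2, -⟩ := h.rows.nx_mem h.R1
  obtain ⟨-, -, a⟩ := h.rng (h.rows.la y1) (h.nk_v y2)
  rcases eq_or_lt_of_le a with c | c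
  · rwa [← h.rows.inj y1 h.R1 c]
  · exact h.link y1 n1 (y2 ▸ (h.aa y1).symm) e h.R1 c (by omega)

/-- a hub on the right side -/
theorem PF.hubR (i : Iv G s s') (a : G.an s = v) (hy : y ∈ G.L 0) (k : Hub G s s' v y) :
    ∃ u, G.Γ.Adj v u ∧ G.Γ.Adj u y ∧ (u = G.nx R ∨ u ∈ G.Im R (G.nx R)) := by
  obtain ⟨s1, l1, -⟩ := h.rng i.hs (h.nk_v a)
  obtain ⟨u, m, e1, e2⟩ := k
  refine ⟨u, e1.symm, e2, ?_⟩
  have f := h.rows.uw.lf _ _ s1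
  rcases m with m | m
  · have k := h.im_s s1 m
    refine Or.inr ((h.loc e1.symm (fun c => k.2 (c ▸ h.zV)) (fun c => k.1.2 (Or.inl c)) hy
      e2).resolve_left fun c => ?_)
    obtain ⟨n1, n2, -⟩ := h.rows.nx_mem h.L1
    unfold TD.Im at m c
    rw [f] at m
    rw [h.rows.uw.lf _ _ h.L1] at c
    refine Set.disjoint_left.1 (h.tf.cl_dis n1 (h.pr _) s1 (h.pr _) (Or.inr rfl) (by omega) ?_) c m
    rw [(h.x_nk h.nL).1, (h.x_nk (h.nk_v a)).2]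
    exact h.xle
  · rw [f] at m
    exact Or.inl ((h.row_nb' m.1 e1.symm hy e2).resolve_left fun c => by rw [c] at m; omega)

theorem PF.hubL (i : Iv G s s') (a : G.an s' = v) (hy : y ∈ G.L 0) (k : Hub G s s' v y) :
    ∃ u, G.Γ.Adj v u ∧ G.Γ.Adj u y ∧ (u = L ∨ u ∈ G.Im L (G.nx L)) := by
  obtain ⟨s1, -, l1⟩ := h.rng (h.rows.la i.hs') (h.nk_v a)
  obtain ⟨u, m, e1, e2⟩ := k
  refine ⟨u, e1.symm, e2, ?_⟩
  have f : G.f s = 1 := (h.rows.uw.lf _ _ i.hs').symm.trans (h.rows.uw.lf _ _ s1)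
  obtain ⟨n1, n2, -⟩ := h.rows.nx_mem h.R1
  rcases m with m | m
  · have k : u ∈ G.S 1 := f ▸ m.1
    refine Or.inr ((h.loc e1.symm (fun c => k.2 (c ▸ h.zV)) (fun c => k.1.2 (Or.inl c)) hy
      e2).resolve_right fun c => ?_)
    unfold TD.Im at m c
    rw [f] at m
    rw [h.rows.uw.lf _ _ h.R1] at c
    refine Set.disjoint_left.1 (h.tf.cl_dis s1 (h.pr _) h.R1 (h.pr _) (Or.inr rfl) l1 ?_) m c
    rw [(h.x_nk h.nR).2, (h.x_nk (h.nk_v a)).1]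
    exact h.xle
  · rw [f] at m
    exact Or.inl ((h.row_nb' m.1 e1.symm hy e2).resolve_right fun c => by rw [c] at m; omega)

theorem PF.lr (a : u ∈ G.Im L (G.nx L)) (b : u ∈ G.Im R (G.nx R)) : False := by
  obtain ⟨n1, n2, -⟩ := h.rows.nx_mem h.L1
  have := h.lt
  unfold TD.Im at a b
  rw [h.rows.uw.lf _ _ h.L1] at a
  rw [h.rows.uw.lf _ _ h.R1] at b
  refine Set.disjoint_left.1 (h.tf.cl_dis n1 (h.pr _) h.R1 (h.pr _) (Or.inr rfl) (by omega) ?_) a b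
  rw [(h.x_nk h.nR).2, (h.x_nk h.nL).1]
  exact h.xle

end

end Pool.Agent.P.MP_08fd93_co.FW
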