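import Pool.Agent.P.MP_08fd93_co.FW.T3
import Pool.Agent.P.MP_08fd93_co.FY.M0

/-! Depth two: two frames over the same lines; the order of the anchored neighbours. -/

set_option autoImplicit false

namespace Pool.Agent.P.MP_08fd93_co.FW

open OV FZ FP2

variable {J : Type} {Γ : SimpleGraph (Vx J)} {η : ℤ × ℤ →+ ℤ} {G G' : TD J}
  {v z u p q t x y L R L' R' : Vx J} {f g g' : Vx J → ℤ} {j : ℤ} {w w' : ℤ × ℤ}

/-- a vertex of height one off the line one lowers nothing in the upper parts -/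
theorem off_gen (hF : Fine Γ) (hU : UW Γ η f w) (fz : ∀ a, f (tr a z) = 1 + η a)
    (o : z ∉ LL Γ f 1) (a : ℤ × ℤ) (n : ℕ) : ∀ j x, x ∈ UU Γ f j →
      x ≠ tr a z → Γ.dist (tr a z) x = n → j ≤ η a + n := by
  induction n with
  | zero => exact fun j x _ ne d => absurd (dist_zero hF.pl d).symm ne
  | succ n ih =>
    intro j x hx _ d
    obtain ⟨y, ey, dy⟩ := dist_step hF.pl d
    by_cases c : y = tr a z
    · by_contra hc
      have fy : f y = 1 + η a := by rw [c, fz]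
      have m := hU.lan j x hx y ey.symm (by omega)
      have := hU.lf _ _ m
      rw [c, show j - 1 = 1 + η a by omega, hU.ltr] at m
      exact o m
    · have m : y ∈ UU Γ f (j - 1) :=
        (hU.bd j x hx y ey.symm).elim (fun k => hU.mono _ _ (by omega) k) fun k => hU.lu _ k
      have := ih (j - 1) y m c dy
      push_cast
      omega

/-- an anchored neighbour off the line one lowers no neighbour of the root -/
theorem TR.valid [Fintype J] (t : TR Γ η v z p g) (hU : UW Γ η (rz v z g) w) (a : Anc Γ η v u q)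
    (o : u ∉ LL Γ (rz v z g) 1) : ∃ g', TR Γ η v u q g' :=
  Sl.tr_of t.toSl a fun x ⟨_, b⟩ ⟨c, l⟩ => by
    by_contra ne
    have := off_gen t.fine hU (fun a' => by rw [t.fper, t.fnb a.vu]) o c _ 1 x
      (hU.cl 1 v t.vu x b.vu (t.fnb b.vu).ge)
      (fun k => ne (t.toSl.near2 (by rw [k]; rfl) b.vu.symm a.vu)) rfl
    omega

theorem TR.uu_sub (t : TR Γ η v z p g) (t' : TR Γ η v u q g') (hU : UW Γ η (rz v u g') w)
    (o : z ∉ LL Γ (rz v u g') 1) (hx : x ∈ UU Γ (rz v u g') j) : x ∈ UU Γ (rz v z g) j := by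
  obtain ⟨h, H⟩ := Sl.h1 t.toSl v
  have key : ∀ x ∈ UU Γ (rz v u g') j, j ≤ rz v z g x := fun x hx => by
    have h1 := hU.ge j x hx
    have h2 := TR.f_le t' H x
    by_cases k : x ∈ Kt v z
    · obtain ⟨a, rfl | rfl⟩ := kt_ex k
      · rwa [t.fper, t.fv, ← t'.fv, ← t'.fper]
      · rwa [t.fper, t.fz, ← t'.fnb t.vz, ← t'.fper]
    · rw [rais_n fun c => k (Or.inl c)] at h2
      rw [rz_n k]
      rcases TR.g_wit t H x with e | ⟨c, e⟩
      · omega
      · have := off_gen t.fine hU (fun a => by rw [t'.fper, t'.fnb t.vz]) o c _ j x hx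
          (fun m => k (m ▸ kt_z c)) rfl
        omega
  intro m
  obtain ⟨y, hy, c⟩ := hx (m + 1)
  refine ⟨y, by have := TR.f_ge t H y; have := TR.f_le t' H y; omega,
    c.sub fun u hu => key u ?_⟩
  exact hu.ind hx fun s t _ ht e k => hU.cl j s k t e ht

/-- two second roots, each off the line one of the other frame, have the same upper parts -/
theorem TR.same (t : TR Γ η v z p g) (t' : TR Γ η v u q g') (hU : UW Γ η (rz v z g) w)
    (hU' : UW Γ η (rz v u g') w') (o : z ∉ LL Γ (rz v u g') 1) (o' : u ∉ LL Γ (rz v z g) 1) :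
    UU Γ (rz v u g') = UU Γ (rz v z g) :=
  funext fun _ => Set.Subset.antisymm (fun _ => TR.uu_sub t t' hU' o) fun _ => TR.uu_sub t' t hU o'

/-- Two frames over the same lines with the same parents on the lines. -/
structure Sm (G G' : TD J) : Prop where
  eΓ : G'.Γ = G.Γ
  eη : G'.η = G.η
  ew : G'.w = G.w
  el : G'.l = G.l
  eρ : G'.ρ = G.ρ
  en : G'.nn = G.nn
  eU : UU G.Γ G'.f = UU G.Γ G.f
  ea : ∀ x ∈ G.LA, G.an x ∉ G.V → G'.an x = G.an x

theorem Sm.U (s : Sm G G') (j : ℤ) : G'.U j = G.U j := by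
  show UU G'.Γ G'.f j = _
  rw [s.eΓ, s.eU]

theorem Sm.eL (s : Sm G G') (j : ℤ) : G'.L j = G.L j := by
  show LL G'.Γ G'.f j = _
  rw [s.eΓ, ll_congr s.eU]

theorem Sm.adj (s : Sm G G') : G'.Γ.Adj x y ↔ G.Γ.Adj x y := by rw [s.eΓ]

/-- another second root with the same upper parts -/
theorem PF.other [Fintype J] (h : PF G v z g L R) (t : TR G.Γ G.η v u q g')
    (e : UU G.Γ (rz v u g') = UU G.Γ (rz v z g)) : ∃ G' L' R', PF G' v u g' L' R' ∧ Sm G G' := by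
  classical
  obtain ⟨a0, e0, h0⟩ := t.an_ex
  have la : ∀ a x, tr a x ∈ G.LA ↔ x ∈ G.LA := fun a x => by
    show tr a x ∈ G.L _ ↔ _
    rw [h.rows.wp.per]
    exact h.rows.uw.ltr a _ x
  have hU : UW G.Γ G.η (rz v u g') G.w := by
    obtain ⟨a1, A1, -⟩ := t.an2 e0 h0
    obtain ⟨G1, H1, m, -⟩ := FY.retail h.fr t e A1
    have := H1.tf.uw
    rwa [H1.eΓ, H1.eη, H1.ef, m] at this
  have lq : ∀ j, G.L j = LL G.Γ (rz v u g') j := fun j => by rw [h.eL, ll_congr e]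
  have ok : ∀ x ∈ G.LA, G.an x ∉ G.V → G.Γ.Adj x (G.an x) ∧ g' (G.an x) = g' x - 1 ∧
      G.an x ∉ Kt v u := fun x c n =>
    ⟨h.aa c, t.l_par hU (lq _ ▸ c) (lq _ ▸ h.tf.an_l c (h.pr _) n)⟩
  obtain ⟨an, A, k⟩ := t.an2 (an0 := fun x => if x ∈ G.LA ∧ G.an x ∉ G.V then G.an x else a0 x)
    (fun a x => by
      simp only [la, h.tf.atr, h.tf.k_tr, e0]
      split_ifs <;> rfl)
    fun x hx => by
      by_cases c : x ∈ G.LA ∧ G.an x ∉ G.V
      · simp only [if_pos c]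
        exact ok x c.1 c.2
      · simp only [if_neg c]
        exact h0 x hx
  obtain ⟨G', H, m1, m2, m3, m4⟩ := FY.retail h.fr t e A
  have hΓ := H.eΓ
  have hη := H.eη
  obtain ⟨L', R', P⟩ := pf_ex (G := G') (v := v) (z := u) (p := q) (g := g') (by rwa [hΓ, hη])
    (by rwa [hΓ, H.ea]) (by rwa [hΓ, hη, H.ea])
  refine ⟨G', L', R', P, hΓ, hη, m1, m2, m3, m4, by rw [H.ef, e, h.fr.ef], fun x c n => ?_⟩
  rw [H.ea, k x ⟨_, ok x c n⟩, if_pos ⟨c, n⟩]

section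

variable (h : PF G v z g L R) (h' : PF G' v u g' L' R') (s : Sm G G')
include h h' s

theorem Sm.ef (hx : x ∈ G.L j) : G'.f x = G.f x :=
  (h'.rows.uw.lf _ _ (show x ∈ G'.L j from s.eL j ▸ hx)).trans (h.rows.uw.lf _ _ hx).symm

theorem Sm.nx (hx : x ∈ G.L j) : G'.nx x = G.nx x := by
  rw [FD.nx, FD.nx, Sm.ef h h' s hx, s.el, s.eρ]

theorem Sm.anV (hx : x ∈ G.L j) : G'.an x ∈ G'.V ↔ G.an x ∈ G.V := by
  rw [h.pure hx, h'.pure (s.eL j ▸ hx), s.eL, s.eΓ]

theorem Sm.symm : Sm G' G := by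
  refine ⟨s.eΓ.symm, s.eη.symm, s.ew.symm, s.el.symm, s.eρ.symm, s.en.symm,
    by rw [s.eΓ, s.eU], fun x c n => ?_⟩
  have c' : x ∈ G.L (G'.f x) := s.eL _ ▸ c
  exact (s.ea x (h.rows.la c') (mt (Sm.anV h h' s c').2 n)).symm

/-- a child of the root lies over both necks -/
theorem Sm.kid (hx : x ∈ G.L 1) (e : G.an x = v) : G'.nk x = u :=
  h'.kid (s.eL 1 ▸ hx) (s.adj.2 (e ▸ (h.aa hx).symm)) ((Sm.anV h h' s hx).2 (e ▸ h.vV))

/-- the right cell of a vertex inside a right cell is smaller -/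
theorem Sm.inner (e : R' = R) (o : G.an (G.nx R) ∉ G.V) (hu : u ∈ G.Im R (G.nx R)) :
    G'.Im R (G.nx R) ⊆ G.Im R (G.nx R) \ {u} := by
  subst e
  have nx := Sm.nx h h' s h.R1
  obtain ⟨n1, n2, -⟩ := h.rows.nx_mem h.R1
  have D := h.disc h.R1
  have D' := h'.disc h'.R1
  rw [s.eΓ] at D'
  have vu : G.Γ.Adj v u := s.adj.1 h'.vz
  have a : G'.an (G.nx R') = G.an (G.nx R') := s.ea _ (h.rows.la n1) o
  have o' : G'.an (G.nx R') ∉ G'.V := mt (Sm.anV h h' s n1).1 o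
  have sub : ∀ x ∈ (Bd G' R').X ∪ (Bd G' R').Y, x ∉ (Bd G R').Z := by
    have key : ∀ x, x ∈ G.Bt R' (G.nx R') ∨ x ∈ G.Top R' (G.nx R') ∨ x ∈ G.Im R' (G.nx R') →
        x ∉ (Bd G R').Z := fun x m k => k (m.elim (fun m => Or.inl (Or.inl m)) fun m =>
      m.elim (fun m => Or.inl (Or.inr m)) Or.inr)
    rintro x (m | m)
    · replace m : x ∈ G'.Bt R' (G'.nx R') := m
      rw [nx] at m
      refine key x ?_
      by_cases c : x ∈ G'.V
      · rcases h'.tf.bt_v m c with k | k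
        · rcases k.1 with r | r
          · rcases h'.an_of h'.nR with k | k
            · exact Or.inl (by rw [r, k, ← h.anR hu vu]; exact bt_a)
            · exact Or.inr (Or.inr (by rwa [r, k]))
          · exact Or.inr (Or.inr (by rwa [r, show G'.md _ = u from h'.nR]))
        · exact absurd (h'.tf.ct_v k) o'
      · obtain ⟨b1, b2, b3⟩ := h'.tf.bt_line h'.R1 (h'.pr _) (s.eL 1 ▸ n1) (h'.pr _)
          (by rw [s.eρ]; omega) m c
        rw [(h'.x_nk h'.nR).2, s.eρ] at b2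
        rw [(h'.tf.xo _ o').1, a, s.eρ] at b3
        rw [s.eL] at b1
        have := (h.imR hu (s.adj.1 h'.feet.2.1.2) (s.eL 0 ▸ h'.feet.2.1.1)).1
        refine Or.inl (Or.inr (Or.inr ⟨h.iD.2.2, Or.inr (Or.inr ⟨?_, ?_, ?_⟩)⟩))
        · rwa [h.rows.uw.lf _ _ h.R1]
        · rw [(h.x_nk h.nR).2]
          omega
        · rwa [(h.tf.xo _ o).1]
    · have f := h.rows.uw.lf _ _ h.R1
      refine key x (Or.inr (Or.inl ?_))
      rcases h'.top h'.R1 m with r | r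
      · rw [r]
        exact ⟨by rw [f]; exact h.R1, le_rfl, by omega⟩
      · rw [r, nx]
        exact ⟨by rw [f]; exact n1, by omega, le_rfl⟩
  obtain ⟨y, y1, -⟩ := (h.rows.l_mem 1 0).1
  have z1 : y ∈ (Bd G R').Z := h.tf.vZ h.R1 (h.pr _) n1 (h.pr _) (Or.inr y1)
  have z2 : y ∈ (Bd G' R').Z := h'.tf.vZ h'.R1 (h'.pr _) (h'.rows.nx_mem h'.R1).1 (h'.pr _)
    (Or.inr (s.U _ ▸ y1))
  have zz : (Bd G R').Z ⊆ (Bd G' R').Z := fun x hx => by
    by_contra n
    obtain ⟨a, b, -, -, ha, g, m, hb⟩ := (D.zc y z1 x hx).exit z2 n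
    exact (D'.cl ⟨a, ha, g.symm⟩).elim hb fun k => sub b k m
  intro x hx
  have k : x ∈ (Bd G' R').I := by rwa [h'.bI h'.R1, nx]
  refine ⟨?_, fun c => (h'.im_s h'.R1 hx).2 (c ▸ h'.zV)⟩
  rw [← h.bI h.R1]
  rintro (m | m)
  · exact k (Or.inl (zz m))
  · obtain ⟨y, y1, y2⟩ := D.tz m
    exact k (D'.cl ⟨y, zz y1, y2⟩)

/-- the two necks do not both lie in the right cell of the other frame -/
theorem Sm.swapR (hu : u ∈ G.Im R (G.nx R)) (hz : z ∈ G'.Im R' (G'.nx R')) : False := by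
  have s' := Sm.symm h h' s
  have a := h.anR hu (s.adj.1 h'.vz)
  have a' := h'.anR hz (s.adj.2 h.vz)
  have l := (h'.rng (h'.rows.la (s.eL 1 ▸ h.R1)) (Sm.kid h h' s h.R1 a)).2.2
  have l' := (h.rng (h.rows.la (s.eL 1 ▸ h'.R1)) (Sm.kid h' h s' h'.R1 a')).2.2
  rw [s.eρ] at l
  have e : R' = R := h.rows.inj (s.eL 1 ▸ h'.R1) h.R1 (by omega)
  subst e
  have nx := Sm.nx h h' s h.R1
  obtain ⟨n1, n2, n3⟩ := h.rows.nx_mem h.R1
  by_cases o : G.an (G.nx R') ∈ G.V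
  swap
  · exact (h.im_s h.R1 (Sm.inner h h' s rfl o hu (nx ▸ hz)).1).2 h.zV
  have o' := (Sm.anV h h' s n1).2 o
  have ad : G.Γ.Adj (G.nx R') (G'.an (G.nx R')) := s.adj.1 (h'.aa (s.eL 1 ▸ n1))
  have ne : G'.nk (G.nx R') ≠ u := fun c => h'.iD.2.2 (h'.nR.trans (nx ▸ c).symm)
  obtain ⟨c, m | m⟩ := kt_ex ((h'.eV _).1 o')
  · refine ne (h'.nk_v (h.sl.near3 (by rw [m]; rfl) ad.symm n3.symm ?_))
    exact a ▸ h.aa h.R1
  · have f := h'.tf.an_f (s.eL 1 ▸ n1) (h'.pr _) o'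
    rw [m, h'.rows.wp.per, h'.fz, s.eη] at f
    rw [m] at ad
    have ad' := h.rows.fine.inv (-c) _ _ ad
    rw [tr_neg] at ad'
    have l1 : tr (-c) (G.nx R') ∈ G.L 1 := by
      have := (h.rows.uw.ltr (-c) 1 _).2 n1
      rwa [map_neg, show 1 + -G.η c = 1 by omega] at this
    rcases h.im_top h.R1 hu ad'.symm l1 with r | r
    · exact h.sl.nl _ _ n3 (congrArg Prod.fst r).symm
    · have := tr_eq_self r
      rw [neg_eq_zero] at this
      rw [this, tr_zero] at m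
      exact ne (by rw [TD.nk, m, h'.fr.mz])

end

end Pool.Agent.P.MP_08fd93_co.FW
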