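import Pool.Agent.P.MP_08fd93_co.FW.T4
import Pool.Agent.P.MP_08fd93_co.FY.M1

/-! Depth two: both anchored neighbours lie on the level line of the single root and off the
lines of the frames; they see one hub. -/

set_option autoImplicit false

namespace Pool.Agent.P.MP_08fd93_co.FW

open OV FZ FP2 FY

variable {J : Type} {Γ : SimpleGraph (Vx J)} {η : ℤ × ℤ →+ ℤ} {G G' : TD J}
  {v z u p q t x y L R L' R' : Vx J} {g g' h : Vx J → ℤ} {j : ℤ} {a : ℤ × ℤ}

/-- the frame read from right to left -/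
theorem PF.rev (P : PF G v z g L R) : PF (mirT G) v z g (G.nx R) (G.nx L) :=
  ⟨P.rt, P.an2, fr2_mir P.fr, (P.rows.nx_mem P.R1).1, (P.rows.nx_mem P.L1).1,
    isA_mir P.rows P.iD, isD_mir P.rows P.iA,
    by rw [mir_nx_nx P.rows P.iD.1]; exact P.nR, P.nL⟩

theorem PF.im_rev (P : PF G v z g L R) (m : u ∈ G.Im L (G.nx L)) :
    u ∈ (mirT G).Im (G.nx L) ((mirT G).nx (G.nx L)) := by
  rw [mir_nx_nx P.rows P.iA.1]
  exact (im_mir P.rows P.L1 (P.rows.nx_mem P.L1).1).2 m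

theorem PF.g_row (P : PF G v z g L R) (hx : x ∈ G.L j) : g x = j ∧ x ∉ Kt v z := by
  have k : x ∉ Kt v z := fun k => P.tf.l_nv hx ((P.eV x).2 k)
  have f := P.rows.uw.lf _ _ hx
  rw [P.fr.ef, rz_n k] at f
  exact ⟨f, k⟩

theorem H1.lipd (H : H1 Γ η v h) (x y : Vx J) : h y ≤ h x + Γ.dist y x := by
  obtain ⟨a, e⟩ := H.wit x
  have := H.le a y
  have := dist_tri H.fine.pl (tr a v) x y
  rw [SimpleGraph.dist_comm]
  omega

/-- The neighbour `u` of the root lies in the right cell of the frame of `z` and touches the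
upper part of the single root. -/
structure Sd (Γ : SimpleGraph (Vx J)) (η : ℤ × ℤ →+ ℤ) (h : Vx J → ℤ) (G : TD J) (v z u : Vx J)
    (g : Vx J → ℤ) (L R : Vx J) : Prop where
  pf : PF G v z g L R
  eΓ : G.Γ = Γ
  eη : G.η = η
  H : H1 Γ η v h
  vu : Γ.Adj v u
  uI : u ∈ G.Im R (G.nx R)
  ul : u ∈ Nb Γ (UU Γ (rais h v) 2)
  cn : IsConn Γ (UU Γ (rais h v) 2)
  ge : ∀ x ∈ UU Γ (rais h v) 2, 2 ≤ rais h v x

section

variable (S : Sd Γ η h G v z u g L R)
include S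

theorem Sd.rt : ∃ p, TR Γ η v z p g := S.eΓ ▸ S.eη ▸ S.pf.rt

theorem Sd.aR : G.an R = v := S.pf.anR S.uI (S.eΓ ▸ S.vu)

theorem Sd.r1 : G.nx R ∈ G.L 1 := (S.pf.rows.nx_mem S.pf.R1).1

theorem Sd.no (hy : y ∈ G.L j) : y ∉ G.Im R (G.nx R) := fun m => by
  have k := (S.pf.im_s S.pf.R1 m).1
  have a := S.pf.rows.uw.ge _ _ k.1
  have b := S.pf.rows.uw.lf _ _ hy
  rcases eq_or_lt_of_le a with c | c
  · exact k.2 (Or.inl (by rwa [c, b]))
  · exact k.2 (Or.inr (S.pf.rows.uw.mono _ j (by omega) (S.pf.rows.uw.lu _ hy)))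

/-- a high vertex outside the cell next to the inside is the upper right corner -/
theorem Sd.exit (hx : x ∈ G.Im R (G.nx R)) (e : Γ.Adj x y) (n : y ∉ G.Im R (G.nx R))
    (l : 2 ≤ rais h v y) : y = G.nx R := by
  have P := S.pf
  obtain ⟨p, T⟩ := S.rt
  have ef : G.f = rz v z g := P.fr.ef
  rcases P.im_nb P.R1 hx (S.eΓ ▸ e) with k | k | k | k
  · exact absurd k n
  · rcases P.tf.bt_st P.R1 (P.pr _) S.r1 (P.pr _) k with ⟨c, k⟩ | k
    · rw [← TR.f_k T S.H ((P.eV y).1 c), ← ef] at l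
      exact absurd (Or.inr (P.rows.uw.mono _ _ l (P.tf.v_st c rfl).1)) k.2
    · have := P.rows.uw.lf _ _ k
      have := TR.f_ge T S.H y
      rw [← ef] at this
      omega
  · have a : Γ.Adj v R := S.eΓ ▸ S.aR ▸ (P.aa P.R1).symm
    rw [k, S.H.fnb a] at l
    omega
  · exact k

theorem Sd.h_le (hx : x ∈ G.L j) : h x ≤ j + 1 :=
  let ⟨_, T⟩ := S.rt; (S.pf.g_row hx).1 ▸ TR.g_ge T S.H x

/-- the upper right corner is high -/
theorem Sd.h2 : h (G.nx R) = 2 := by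
  obtain ⟨p, T⟩ := S.rt
  obtain ⟨b, hb, e⟩ := S.ul
  have key : G.nx R ∈ UU Γ (rais h v) 2 := by
    by_cases c : b ∈ G.Im R (G.nx R)
    · have m := S.pf.rows.l_mem 2 0
      have m' : G.l 2 0 ∈ UU Γ (rz v z g) 2 := by
        rw [← S.pf.fr.ef, ← S.eΓ]
        exact S.pf.rows.uw.lu _ m
      obtain ⟨x, y, -, -, hx, a, k, n⟩ := (S.cn b hb _ (TR.uu_le T S.H m')).exit c (S.no m)
      exact S.exit hx a n (S.ge y k) ▸ k
    · exact S.exit S.uI e c (S.ge b hb) ▸ hb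
  have := S.ge _ key
  rw [rais_n fun c => (S.pf.g_row S.r1).2 (Or.inl c)] at this
  have := S.h_le S.r1
  omega

/-- an ascending shortest walk leaves the cell at once, through the upper right corner -/
theorem Sd.asc (n : y ∉ G.Im R (G.nx R)) (k : ℕ) : ∀ x ∈ G.Im R (G.nx R), 1 ≤ h x →
    Γ.dist y x = k → h y = h x + k → h x = 1 ∧ Γ.Adj x (G.nx R) ∧ Γ.dist y (G.nx R) + 1 = k := by
  induction k with
  | zero => exact fun x hx _ d _ => absurd (dist_zero S.H.fine.pl d ▸ hx) n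
  | succ k ih =>
    intro x hx l d e
    obtain ⟨b, eb, db⟩ := dist_step S.H.fine.pl d
    have h1 := S.H.lipd b y
    have h2 := S.H.lip eb.symm
    rw [db] at h1
    push_cast at e
    by_cases c : b ∈ G.Im R (G.nx R)
    · have := (ih b c (by omega) db (by omega)).1
      omega
    · obtain rfl := S.exit hx eb.symm c (le_trans (by omega) (rais_ge b))
      have := S.h2
      exact ⟨by omega, eb.symm, by rw [db]⟩

/-- a row vertex that is high for the single root is lowered by the second root -/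
theorem Sd.low (hx : x ∈ G.L j) (e : h x = j + 1) : ∃ a, η a + Γ.dist (tr a z) x = j := by
  obtain ⟨p, T⟩ := S.rt
  have := (S.pf.g_row hx).1
  rcases TR.g_wit T S.H x with k | ⟨a, k⟩
  · omega
  · exact ⟨a, by omega⟩

theorem Sd.ltr (hx : x ∈ G.L j) (a : ℤ × ℤ) : tr a x ∈ G.L (j + η a) :=
  S.eη ▸ (S.pf.rows.uw.ltr a j x).2 hx

end

section

variable (S : Sd Γ η h G v z u g L R) (S' : Sd Γ η h G' v u z g' L' R') (e : ∀ j, G'.L j = G.L j)
include S S' e

theorem Sd.up (hx : x ∈ G.L j) (k : h x = j + 1) : ∃ a, Γ.Adj z (G'.nx R') ∧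
    (Γ.dist (tr a (G'.nx R')) x : ℤ) = j - 1 - η a := by
  obtain ⟨a, d⟩ := S.low hx k
  have m := S.ltr hx (-a)
  rw [← e] at m
  have hz := S.H.nb S'.vu
  have d' : Γ.dist (tr (-a) x) z = Γ.dist (tr a z) x := by
    rw [← S.H.fine.dist_tr a, tr_neg', SimpleGraph.dist_comm]
  obtain ⟨-, k1, k2⟩ := S'.asc (S'.no m) _ z S'.uI hz.ge rfl (by
    rw [S.H.per, map_neg, d']
    omega)
  refine ⟨a, k1, ?_⟩
  rw [← S.H.fine.dist_tr a, tr_neg', SimpleGraph.dist_comm, d'] at k2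
  omega

/-- the two upper corners are translates of one hub -/
theorem Sd.hub : ∃ a, η a = 0 ∧ G.nx R = tr a (G'.nx R') ∧ Γ.Adj z (G'.nx R') := by
  obtain ⟨a, k, d⟩ := S.up S' e S.r1 S.h2
  obtain ⟨b, -, d'⟩ := S'.up S (fun j => (e j).symm) S'.r1 S'.h2
  have F := S.H.fine
  have t := dist_tri F.pl (tr b (tr a (G'.nx R'))) (tr b (G.nx R)) (G'.nx R')
  rw [F.dist_tr, tr_tr] at t
  have ab : a + b = 0 := by
    by_contra c
    have := S.H.toSl.back (G'.nx R') c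
    rw [map_add] at this
    omega
  have := congrArg η ab
  rw [map_add, map_zero] at this
  exact ⟨a, by omega, (dist_zero F.pl (by omega)).symm, k⟩

/-- the hub has no foot -/
theorem Sd.pure (hy : y ∈ G.L 0) : ¬ Γ.Adj (G.nx R) y := fun k => by
  obtain ⟨a, ha, r, -⟩ := S.hub S' e
  have h1 := S.H.lip k.symm
  have h2 := S.h_le hy
  have h3 := S.h2
  obtain ⟨c, -, d⟩ := S.up S' e hy (by omega)
  have F := S.H.fine
  have t := dist_tri F.pl (tr c (G'.nx R')) y (G.nx R)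
  rw [dist_adj k.symm, r, ← F.dist_tr (-a), tr_neg, tr_tr] at t
  by_cases n : c + -a = 0
  · have := congrArg η n
    rw [map_add, map_neg, map_zero] at this
    omega
  · have := S.H.toSl.back (G'.nx R') n
    rw [map_add, map_neg] at this
    omega

theorem Sd.anV : G.an (G.nx R) ∈ G.V :=
  (S.pf.pure S.r1).2 fun _ hy k => S.pure S' e hy (S.eΓ ▸ k)

/-- the hub is a child of the next neck -/
theorem Sd.ah : G.an (G.nx R) = tr G.w z ∧ G.nx R = tr G.w (G'.nx R') := by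
  obtain ⟨a, ha, r, k⟩ := S.hub S' e
  obtain ⟨p, T⟩ := S.rt
  have P := S.pf
  have g1 := P.g_row S.r1
  have an : G.an (G.nx R) = tr a z := P.an2.nz _ g1.2 ((P.eV _).1 (S.anV S' e)) a
    (by rw [r, S.eΓ]; exact (S.H.fine.inv a _ _ k).symm) (by rw [T.per, T.gz, g1.1, ha]; rfl)
  obtain ⟨n, rfl⟩ := (P.rows.wp.ker a).1 (S.eη ▸ ha)
  have m : G'.nx R' ∈ G.L 1 := e 1 ▸ S'.r1
  have a0 : G.an (G'.nx R') = z := by
    have := an
    rw [r, P.an2.atr] at this
    rw [← tr_neg (n • G.w) (G.an _), this, tr_neg]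
  have nk : G.nk (G'.nx R') = z := by rw [TD.nk, a0, P.fr.mz]
  obtain ⟨-, l1, l2⟩ := P.rng (P.rows.la m) nk
  have p1 := (P.rows.rho_lw n m).2
  have p2 := P.rows.rho_lw 1 m
  have n2 := P.rows.n2 1
  have n3 := (P.rows.nx_mem P.R1).2.1
  rw [← r] at p1
  have n0 : 0 < n := by nlinarith
  have n1 : n ≤ 1 := by
    by_contra c
    have := P.nk_of p2.1 (by omega) (by nlinarith [p2.2])
    rw [TD.nk, P.an2.atr, a0, P.md_z, one_smul] at this
    exact P.rows.wp.w0 (tr_eq_self this)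
  obtain rfl : n = 1 := by omega
  rw [one_smul] at an r
  exact ⟨an, r⟩

/-- the left edge is a translate of the right edge -/
theorem Sd.eL : tr (-G.w) R = L := by
  have P := S.pf
  have w0 := P.rows.wp.w0
  have m := (P.rows.rho_lw (-1) P.R1).1
  rw [neg_one_zsmul] at m
  refine P.eqL (P.rows.la m) ?_ fun c => ?_
  · rw [P.rows.nx_tr _ P.R1, TD.nk, P.an2.atr, (S.ah S' e).1, tr_neg, P.fr.mz]
  · rw [TD.nk, P.an2.atr, S.aR, P.md_v] at c
    exact w0 (neg_eq_zero.1 (tr_eq_self c))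

/-- no neighbour of the root on the line one has a foot -/
theorem Sd.row (hx : x ∈ G.L 1) (a : Γ.Adj v x) (hy : y ∈ G.L 0) : ¬ Γ.Adj x y := fun k => by
  have P := S.pf
  rcases P.row_nb' hx (S.eΓ ▸ a) hy (S.eΓ ▸ k) with r | r
  · refine (P.pure hx).1 ?_ y hy (S.eΓ ▸ k)
    rw [r, ← S.eL S' e, P.an2.atr, S.aR, P.eV]
    exact kt_v _
  · exact S.pure S' e hy (r ▸ k)

end

end Pool.Agent.P.MP_08fd93_co.FW
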