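import Pool.Agent.P.MP_08fd93_co.FN.N0

/-! Walls: a chain of edges cannot avoid two periodic walls of independent classes. -/

set_option autoImplicit false

namespace Pool.Agent.P.MP_08fd93_co.FW

open OV FN

variable {J : Type} {F : FD J} {X : XD J} {Pr : Set (Vx J)}

/-- A periodic sequence with one vertex on each row. -/
structure Wall (F : FD J) (x : ℤ → Vx J) (a : ℤ × ℤ) : Prop where
  pos : 0 < F.η a
  mem : ∀ i, x i ∈ F.L i
  per : ∀ i, x (i + F.η a) = tr a (x i)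

theorem Wall.mul {x : ℤ → Vx J} {a : ℤ × ℤ} (h : Wall F x a) (k : ℕ) (i : ℤ) :
    x (i + k * F.η a) = tr ((k : ℤ) • a) (x i) := by
  induction k with
  | zero => simp [tr_zero]
  | succ k ih =>
    have e : i + ((k + 1 : ℕ) : ℤ) * F.η a = i + k * F.η a + F.η a := by push_cast; ring
    rw [e, h.per, ih, tr_tr]
    congr 1
    push_cast
    rw [add_smul, one_smul]

/-- The chain `e` does not cross the translates of the wall along the rows. -/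
def Keep (F : FD J) (x : ℤ → Vx J) (e : ℕ → Vx J) (j : ℤ) : Prop :=
  ∀ (k : ℤ) (i : ℕ), (F.ρ (tr (k • F.w) (x (j + i))) ≤ F.ρ (e i) ↔
    F.ρ (tr (k • F.w) (x (j + i + 1))) ≤ F.ρ (e (i + 1)))

theorem Keep.all {x : ℤ → Vx J} {e : ℕ → Vx J} {j : ℤ} (h : Keep F x e j) (k : ℤ) (i : ℕ) :
    F.ρ (tr (k • F.w) (x j)) ≤ F.ρ (e 0) ↔ F.ρ (tr (k • F.w) (x (j + i))) ≤ F.ρ (e i) := by
  induction i with
  | zero => simp
  | succ i ih =>
    rw [ih, h k i]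
    push_cast
    rw [add_assoc]

theorem half (hF : Lay F X Pr) {x1 x2 : ℤ → Vx J} {a1 a2 : ℤ × ℤ} (w1 : Wall F x1 a1)
    (w2 : Wall F x2 a2) {N : ℤ} (hN : 0 < N) (hw : F.η a2 • a1 = F.η a1 • a2 + N • F.w)
    {e : ℕ → Vx J} {j : ℤ} (k1 : Keep F x1 e j) (k2 : Keep F x2 e j) : False := by
  have p1 := w1.pos
  have p2 := w2.pos
  obtain ⟨n1, e1⟩ := Int.eq_ofNat_of_zero_le p1.le
  obtain ⟨n2, e2⟩ := Int.eq_ofNat_of_zero_le p2.le
  have hn := hF.n2 j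
  obtain ⟨s, hs⟩ : ∃ s : ℤ, F.ρ (tr (s • F.w) (x1 j)) ≤ F.ρ (e 0) := by
    refine ⟨-|F.ρ (e 0) - F.ρ (x1 j)|, ?_⟩
    rw [(hF.w_mem _ (w1.mem j)).2]
    have := neg_abs_le (F.ρ (e 0) - F.ρ (x1 j))
    nlinarith [abs_nonneg (F.ρ (e 0) - F.ρ (x1 j))]
  obtain ⟨t, ht⟩ : ∃ t : ℤ, F.ρ (e 0) < F.ρ (tr (t • F.w) (x2 j)) := by
    refine ⟨|F.ρ (e 0) - F.ρ (x2 j)| + 1, ?_⟩
    rw [(hF.w_mem _ (w2.mem j)).2]
    have := le_abs_self (F.ρ (e 0) - F.ρ (x2 j))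
    nlinarith [abs_nonneg (F.ρ (e 0) - F.ρ (x2 j))]
  have mu := (hF.w_mem s (w1.mem j)).1
  have mv := (hF.w_mem t (w2.mem j)).1
  set u := tr (s • F.w) (x1 j) with hu
  set v := tr (t • F.w) (x2 j) with hv
  obtain ⟨k, hk⟩ : ∃ k : ℕ, F.ρ v - F.ρ u ≤ k := ⟨(F.ρ v - F.ρ u).toNat, Int.self_le_toNat _⟩
  have h1 := (k1.all s (k * n2 * n1)).1 hs
  have h2 := mt (k2.all t (k * n2 * n1)).2 (not_le.2 ht)
  have g1 := w1.mul (k * n2) j
  have g2 := w2.mul (k * n1) j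
  have i1 : j + ((k * n2 * n1 : ℕ) : ℤ) = j + ((k * n2 : ℕ) : ℤ) * F.η a1 := by
    rw [e1]; push_cast; ring
  have i2 : j + ((k * n2 * n1 : ℕ) : ℤ) = j + ((k * n1 : ℕ) : ℤ) * F.η a2 := by
    rw [e2]; push_cast; ring
  rw [i1, g1] at h1
  rw [i2, g2] at h2
  set c : ℤ × ℤ := ((k * n1 : ℕ) : ℤ) • a2 with hc
  have q1 : ((k * n2 : ℕ) : ℤ) • a1 = c + ((k : ℤ) * N) • F.w := by
    have : ((k * n2 : ℕ) : ℤ) • a1 = (k : ℤ) • (F.η a2 • a1) := by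
      rw [e2, smul_smul]; push_cast; rfl
    rw [this, hw, smul_add, smul_smul, smul_smul, hc, e1]
    push_cast
    rfl
  have r1 : tr (s • F.w) (tr (((k * n2 : ℕ) : ℤ) • a1) (x1 j)) =
      tr (((k : ℤ) * N) • F.w) (tr c u) := by
    rw [q1, hu, tr_tr, tr_tr, tr_tr]
    congr 1
    abel
  have r2 : tr (t • F.w) (tr c (x2 j)) = tr c v := by
    rw [hv, tr_tr, tr_tr, add_comm]
  rw [r1, (hF.w_mem _ ((hF.ltr c j u).2 mu)).2] at h1
  rw [r2] at h2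
  have r3 := hF.rd c mu mv
  have hn' := hF.n2 (j + F.η c)
  have : (k : ℤ) ≤ k * N * F.nn (j + F.η c) := by
    have k0 : (0 : ℤ) ≤ k := Int.natCast_nonneg k
    have : (1 : ℤ) ≤ N * F.nn (j + F.η c) := by nlinarith
    nlinarith
  omega

/-- No chain keeps its side with respect to two walls of independent classes. -/
theorem two_walls (hF : Lay F X Pr) {x1 x2 : ℤ → Vx J} {a1 a2 : ℤ × ℤ} (w1 : Wall F x1 a1)
    (w2 : Wall F x2 a2) (hd : det a1 a2 ≠ 0) {e : ℕ → Vx J} {j : ℤ} (k1 : Keep F x1 e j)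
    (k2 : Keep F x2 e j) : False := by
  obtain ⟨N, hN⟩ := (hF.ker (F.η a2 • a1 - F.η a1 • a2)).1 (by
    rw [map_sub, map_zsmul, map_zsmul, smul_eq_mul, smul_eq_mul]
    ring)
  rcases lt_trichotomy N 0 with h | h | h
  · refine half hF w2 w1 (N := -N) (by omega) ?_ k2 k1
    rw [neg_smul, ← hN]
    abel
  · rw [h, zero_smul, sub_eq_zero] at hN
    have h1 := congrArg Prod.fst hN
    have h2 := congrArg Prod.snd hN
    simp only [Prod.smul_fst, Prod.smul_snd, smul_eq_mul] at h1 h2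
    have p := w2.pos
    have : F.η a2 * det a1 a2 = 0 := by
      unfold det
      linear_combination a2.2 * h1 - a2.1 * h2
    exact hd ((mul_eq_zero.1 this).resolve_left p.ne')
  · refine half hF w1 w2 h ?_ k1 k2
    rw [← hN]
    abel

/-- The edge named by `z` belongs to the top of a cell over the edge named by `y`. -/
def Ov (F : FD J) (Pr : Set (Vx J)) (y z : Vx J) : Prop :=
  z ∈ F.L (F.f y + 1) ∧
    ∀ s ∈ F.L (F.f y + 1), s ∈ Pr → (F.ρ s ≤ F.ρ z ↔ F.ρ (F.an s) ≤ F.ρ y)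

theorem ov_of_und (hF : Lay F X Pr) {y z : Vx J} (h : F.Und y z) (pz : z ∈ Pr)
    (pn : F.nx z ∈ Pr) : Ov F Pr y z := by
  obtain ⟨h1, h2, h3⟩ := h
  obtain ⟨n1, n2, -⟩ := hF.nx_mem h1
  refine ⟨h1, fun s hs ps => ⟨fun k => (hF.amono _ s hs z h1 ps pz k).trans h2, fun k => ?_⟩⟩
  by_contra hc
  have := hF.amono _ _ n1 s hs pn ps (by omega)
  omega

/-- The wall follows the parent map, up to jumps over edges of the zone `Z`. -/
def Fol (F : FD J) (Pr Z : Set (Vx J)) (x : ℤ → Vx J) : Prop :=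
  ∀ t, x (t + 1) ∈ Pr ∧
    ∀ z ∈ F.L t, z ∉ Z → (F.ρ (x t) ≤ F.ρ z ↔ F.ρ (F.an (x (t + 1))) ≤ F.ρ z)

theorem keep_of (hF : Lay F X Pr) {Z : Set (Vx J)} (hZ : ∀ a, ∀ z ∈ Z, tr a z ∈ Z)
    {x : ℤ → Vx J} {a : ℤ × ℤ} (w : Wall F x a) (hx : Fol F Pr Z x) {e : ℕ → Vx J} {j : ℤ}
    (he : ∀ i : ℕ, e i ∈ F.L (j + i)) (ho : ∀ i, Ov F Pr (e i) (e (i + 1))) (hn : ∀ i, e i ∉ Z) :
    Keep F x e j := by
  intro k i
  have m := he i
  have fe := hF.lf _ _ m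
  obtain ⟨-, o2⟩ := ho i
  rw [fe] at o2
  obtain ⟨p, q⟩ := hx (j + i)
  have m1 := w.mem (j + i + 1)
  rw [o2 _ (hF.w_mem k m1).1 (hF.pinv _ _ p), hF.atr _ _ p]
  have am := hF.anL _ _ m1 p
  rw [add_sub_cancel_right] at am
  rw [(hF.w_mem k am).2, (hF.w_mem k (w.mem _)).2]
  obtain ⟨b1, b2⟩ := hF.w_mem (-k) m
  have := q _ b1 fun hz => hn i (by
    have := hZ (k • F.w) _ hz
    rwa [tr_tr, neg_smul, neg_add_cancel, tr_zero] at this)
  rw [b2, neg_mul] at this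
  omega

/-- Every infinite chain of edges meets the zone. -/
theorem meets (hF : Lay F X Pr) {Z : Set (Vx J)} (hZ : ∀ a, ∀ z ∈ Z, tr a z ∈ Z)
    {x1 x2 : ℤ → Vx J} {a1 a2 : ℤ × ℤ} (w1 : Wall F x1 a1) (w2 : Wall F x2 a2)
    (hd : det a1 a2 ≠ 0) (h1 : Fol F Pr Z x1) (h2 : Fol F Pr Z x2) {e : ℕ → Vx J}
    (h0 : e 0 ∈ F.LA) (ho : ∀ i, Ov F Pr (e i) (e (i + 1))) : ∃ i, e i ∈ Z := by
  by_contra hc
  have hn : ∀ i, e i ∉ Z := fun i k => hc ⟨i, k⟩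
  have he : ∀ i : ℕ, e i ∈ F.L (F.f (e 0) + i) := by
    intro i
    induction i with
    | zero => simpa using (show e 0 ∈ F.L (F.f (e 0)) from h0)
    | succ i ih =>
      have := (ho i).1
      rw [hF.lf _ _ ih] at this
      push_cast
      rwa [← add_assoc]
  exact two_walls hF w1 w2 hd (keep_of hF hZ w1 h1 he ho hn) (keep_of hF hZ w2 h2 he ho hn)

/-- The uniform bound for an equivariant map. -/
theorem bar [Fintype J] (hF : Lay F X Pr) {Z : Set (Vx J)} (hZ : ∀ a, ∀ z ∈ Z, tr a z ∈ Z)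
    {x1 x2 : ℤ → Vx J} {a1 a2 : ℤ × ℤ} (w1 : Wall F x1 a1) (w2 : Wall F x2 a2)
    (hd : det a1 a2 ≠ 0) (h1 : Fol F Pr Z x1) (h2 : Fol F Pr Z x2) {φ : Vx J → Vx J}
    (ho : ∀ y ∈ F.LA, Ov F Pr y (φ y)) (eqv : ∀ a, ∀ y ∈ F.LA, φ (tr a y) = tr a (φ y)) :
    ∃ N : ℕ, ∀ y ∈ F.LA, ∃ t, t ≤ N ∧ φ^[t] y ∈ Z := by
  have la : ∀ y ∈ F.LA, ∀ t, φ^[t] y ∈ F.LA := by
    intro y hy t
    induction t with
    | zero => exact hy
    | succ t ih =>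
      rw [Function.iterate_succ_apply']
      exact hF.la (ho _ ih).1
  have it : ∀ a, ∀ y ∈ F.LA, ∀ t, φ^[t] (tr a y) = tr a (φ^[t] y) := by
    intro a y hy t
    induction t with
    | zero => rfl
    | succ t ih => rw [Function.iterate_succ_apply', Function.iterate_succ_apply', ih,
        eqv a _ (la y hy t)]
  have ex : ∀ u : J, ∃ t : ℕ, ((u, 0) : Vx J) ∈ F.LA → φ^[t] (u, 0) ∈ Z := by
    intro u
    by_cases hu : ((u, 0) : Vx J) ∈ F.LA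
    · obtain ⟨i, hi⟩ := meets hF hZ w1 w2 hd h1 h2 (e := fun i => φ^[i] (u, 0)) hu fun i => by
        simp only [Function.iterate_succ_apply']
        exact ho _ (la _ hu i)
      exact ⟨i, fun _ => hi⟩
    · exact ⟨0, fun k => absurd k hu⟩
  choose T hT using ex
  refine ⟨Finset.univ.sup T, fun y hy => ⟨T y.1, Finset.le_sup (Finset.mem_univ _), ?_⟩⟩
  have e : y = tr y.2 (y.1, 0) := by simp [tr]
  have h0 : ((y.1, 0) : Vx J) ∈ F.LA := (hF.la_tr y.2 _).1 (e ▸ hy)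
  have := hZ y.2 _ (hT _ h0)
  rwa [← it _ _ h0, ← e] at this

end Pool.Agent.P.MP_08fd93_co.FW
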