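import Pool.Agent.P.MP_08fd93_co.FW.W1

/-! A wall from a parent chain that closes up with one jump. -/

set_option autoImplicit false

namespace Pool.Agent.P.MP_08fd93_co.FW

open OV FN

variable {J : Type} {F : FD J} {X : XD J} {Pr : Set (Vx J)}

theorem chain_mem (hF : Lay F X Pr) {p : Vx J} {j : ℤ} (hp : p ∈ F.L j) {M : ℕ}
    (hPr : ∀ m, m < M → F.an^[m] p ∈ Pr) : ∀ m, m ≤ M → F.an^[m] p ∈ F.L (j - m) := by
  intro m
  induction m with
  | zero => intro _; simpa using hp
  | succ m ih =>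
    intro hm
    have := hF.anL _ _ (ih (by omega)) (hPr m (by omega))
    rw [Function.iterate_succ_apply']
    push_cast
    rwa [← sub_sub]

/-- The chain from `p` ends in a translate of `y`; the jump from `y` to `p` differs from the
parent of `y` only inside the zone. -/
theorem wall_of (hF : Lay F X Pr) {Z : Set (Vx J)} (hZ : ∀ a, ∀ z ∈ Z, tr a z ∈ Z) {p y : Vx J}
    {j : ℤ} {M : ℕ} {a : ℤ × ℤ} (hp : p ∈ F.L j) (hPr : ∀ m, m < M → F.an^[m] p ∈ Pr)
    (he : F.an^[M] p = tr (-a) y) (fy : F.f y = j + 1) (py : y ∈ Pr)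
    (hj : ∀ z ∈ F.L j, z ∉ Z → (F.ρ p ≤ F.ρ z ↔ F.ρ (F.an y) ≤ F.ρ z)) :
    ∃ x, Wall F x a ∧ Fol F Pr Z x := by
  have cm := chain_mem hF hp hPr
  have hn : F.η a = M + 1 := by
    have h1 := hF.lf _ _ (cm M le_rfl)
    rw [he, hF.per, map_neg] at h1
    omega
  have hy : y ∈ F.L (j + 1) := by
    have := (hF.ltr a _ _).2 (cm M le_rfl)
    rw [he, tr_neg', hn] at this
    rwa [show j - M + (M + 1) = j + 1 by ring] at this
  have n0 : (0 : ℤ) < M + 1 := by omega
  have ek : ∀ k : ℤ, F.η (k • a) = k * (M + 1) := fun k => by rw [map_zsmul, hn, smul_eq_mul]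
  have dec : ∀ i : ℤ, ∃ (q : ℤ) (r : ℕ), r ≤ M ∧ (i - j - 1) / (M + 1) = q ∧
      (i - j - 1) % (M + 1) = r ∧ i = j + 1 + r + q * (M + 1) := by
    intro i
    have h1 := Int.emod_nonneg (i - j - 1) n0.ne'
    have h2 := Int.emod_lt_of_pos (i - j - 1) n0
    have h3 := Int.emod_add_ediv_mul (i - j - 1) (M + 1)
    obtain ⟨r, hr⟩ := Int.eq_ofNat_of_zero_le h1
    exact ⟨_, r, by omega, rfl, hr, by omega⟩
  have val : ∀ (q : ℤ) (r : ℕ), r ≤ M → (j + 1 + r + q * (M + 1) - j - 1) / (M + 1) = q ∧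
      (j + 1 + r + q * (M + 1) - j - 1) % (M + 1) = r := by
    intro q r hr
    rw [show j + 1 + r + q * (M + 1) - j - 1 = r + q * (M + 1) by ring]
    constructor
    · rw [Int.add_mul_ediv_right _ _ n0.ne', Int.ediv_eq_zero_of_lt (by omega) (by omega), zero_add]
    · rw [Int.add_mul_emod_self_right, Int.emod_eq_of_lt (by omega) (by omega)]
  obtain ⟨x, hx⟩ : ∃ x : ℤ → Vx J, ∀ (q : ℤ) (r : ℕ), r ≤ M →
      x (j + 1 + r + q * (M + 1)) = tr ((q + 1) • a) (F.an^[M - r] p) :=
    ⟨fun i => tr (((i - j - 1) / (M + 1) + 1) • a) (F.an^[M - ((i - j - 1) % (M + 1)).toNat] p),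
      fun q r hr => by
        simp only [(val q r hr).1, (val q r hr).2, Int.toNat_natCast]⟩
  refine ⟨x, ⟨by omega, fun i => ?_, fun i => ?_⟩, fun t => ?_⟩
  · obtain ⟨q, r, hr, -, -, rfl⟩ := dec i
    rw [hx q r hr]
    have := (hF.ltr ((q + 1) • a) _ _).2 (cm (M - r) (by omega))
    rw [ek] at this
    rwa [show j - ((M - r : ℕ) : ℤ) + (q + 1) * (M + 1) = j + 1 + r + q * (M + 1) by
      push_cast [hr]; ring] at this
  · obtain ⟨q, r, hr, -, -, rfl⟩ := dec i
    rw [hx q r hr, hn, show j + 1 + r + q * (M + 1) + (M + 1) = j + 1 + r + (q + 1) * (M + 1) by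
      ring, hx (q + 1) r hr, tr_tr, add_smul (q + 1) 1, one_smul]
  · obtain ⟨q, r, hr, -, -, e⟩ := dec (t + 1)
    rcases r with _ | r
    · have e1 : t = j + 1 + (M : ℕ) + (q - 1) * (M + 1) := by
        push_cast at e
        linarith
      have x1 : x (t + 1) = tr (q • a) y := by
        rw [e, hx q 0 hr, Nat.sub_zero, he, tr_tr]
        congr 1
        rw [add_smul, one_smul]
        abel
      have x0 : x t = tr (q • a) p := by
        rw [e1, hx (q - 1) M le_rfl, Nat.sub_self, sub_add_cancel]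
        rfl
      rw [x1, x0, hF.atr _ _ py]
      refine ⟨hF.pinv _ _ py, fun z hz hn => ?_⟩
      obtain ⟨z, rfl⟩ := tr_surj (q • a) z
      have e2 : t = j + F.η (q • a) := by
        rw [ek]
        linarith
      rw [e2, hF.ltr] at hz
      have a1 := hF.anL _ _ hy py
      rw [add_sub_cancel_right] at a1
      have k := hj z hz fun h => hn (hZ _ _ h)
      have r1 := hF.rd (q • a) hp hz
      have r2 := hF.rd (q • a) a1 hz
      omega
    · have e1 : t = j + 1 + (r : ℕ) + q * (M + 1) := by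
        push_cast at e
        linarith
      have pm := hPr (M - (r + 1)) (by omega)
      have x0 : x t = F.an (x (t + 1)) := by
        rw [e, hx q _ hr, hF.atr _ _ pm, e1, hx q r (by omega),
          show M - r = M - (r + 1) + 1 by omega, Function.iterate_succ_apply']
      refine ⟨?_, fun z _ _ => by rw [x0]⟩
      rw [e, hx q _ hr]
      exact hF.pinv _ _ pm

end Pool.Agent.P.MP_08fd93_co.FW
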