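import Pool.Agent.P.MP_08fd93_co.FS.Root5
import Pool.Agent.P.MP_08fd93_co.FZ.Ht

/-! Depth two: heights along the two lines and a parent map that follows them. -/

set_option autoImplicit false

namespace Pool.Agent.P.MP_08fd93_co.FW

open OV FZ FZ2

variable {J : Type} {Γ : SimpleGraph (Vx J)} {η : ℤ × ℤ →+ ℤ} {f : Vx J → ℤ}

/-- A line of slack two along which the height grows. -/
structure Up (Γ : SimpleGraph (Vx J)) (η : ℤ × ℤ →+ ℤ) (f : Vx J → ℤ) (c : ℤ × ℤ)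
    (l : ℤ → Vx J) : Prop where
  ln : FZ2.Ln Γ c l
  sl : (OV.DL Γ c : ℤ) = η c + 2
  pos : 1 ≤ η c
  ht : ∀ i, 1 ≤ i → i ≤ η c → f (l i) = i - 1

/-- `x` is a translate of a point of the line with index between two and `n`. -/
def On (l : ℤ → Vx J) (n : ℤ) (x : Vx J) : Prop := ∃ b i, 2 ≤ i ∧ i ≤ n ∧ x = tr b (l i)

theorem On.tr {l : ℤ → Vx J} {n : ℤ} (a : ℤ × ℤ) (x : Vx J) :
    On l n (Pool.Agent.P.MP_08fd93_co.tr a x) ↔ On l n x := by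
  constructor
  · rintro ⟨b, i, h1, h2, e⟩
    exact ⟨b + -a, i, h1, h2, by rw [← tr_tr, ← e, tr_neg]⟩
  · rintro ⟨b, i, h1, h2, rfl⟩
    exact ⟨b + a, i, h1, h2, tr_tr _ _ _⟩

theorem Up.uni (hη : ∀ a, a ≠ 0 → η a + 2 ≤ (OV.DL Γ a : ℤ))
    (per : ∀ a x, f (tr a x) = f x + η a) {c : ℤ × ℤ} {l : ℤ → Vx J} (h : Up Γ η f c l)
    {b b' : ℤ × ℤ} {i i' : ℤ} (h1 : 1 ≤ i) (h2 : i ≤ η c) (h1' : 1 ≤ i') (h2' : i' ≤ η c)
    (e : tr b (l i) = tr b' (l i')) : b = b' ∧ i = i' := by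
  have f1 := congrArg f e
  rw [per, per, h.ht i h1 h2, h.ht i' h1' h2'] at f1
  have hb : b = b' := by
    by_contra hne
    have e1 : l i = tr (b' - b) (l i') := by
      rw [← tr_neg b (l i), e, tr_tr, sub_eq_add_neg]
    have g1 := FS.gap hη (l i') (a := 0) (b := b' - b) fun k => hne (sub_eq_zero.1 k.symm).symm
    have g2 := FS.gap hη (l i') (a := b' - b) (b := 0) fun k => hne (sub_eq_zero.1 k).symm
    rw [tr_zero, ← e1, h.ln.geo.dist, map_zero, map_sub] at g1 g2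
    omega
  subst hb
  exact ⟨rfl, by omega⟩

theorem Up.m2 {c : ℤ × ℤ} {l : ℤ → Vx J} (h : Up Γ η f c l) (i : ℤ) :
    l (i - (η c + 2)) = tr (-c) (l i) := by
  have := h.ln.per (i - (η c + 2))
  rw [h.sl, sub_add_cancel] at this
  rw [this, tr_neg]

/-- The chain from `p` has `M` steps and ends in a translate of `y`. -/
def Ch (Γ : SimpleGraph (Vx J)) (f : Vx J → ℤ) (an : Vx J → Vx J) (p : Vx J) (M : ℕ)
    (q : Vx J) : Prop := (∀ m, m < M → Hp Γ f (an^[m] p)) ∧ an^[M] p = q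

theorem Ch.trans {an : Vx J → Vx J} {p q r : Vx J} {M N : ℕ} (h : Ch Γ f an p M q)
    (h' : Ch Γ f an q N r) : Ch Γ f an p (N + M) r := by
  refine ⟨fun m hm => ?_, by rw [Function.iterate_add_apply, h.2, h'.2]⟩
  by_cases k : m < M
  · exact h.1 m k
  · obtain ⟨t, rfl⟩ : ∃ t, m = t + M := ⟨m - M, by omega⟩
    rw [Function.iterate_add_apply, h.2]
    exact h'.1 t (by omega)

theorem Up.hp (hF : Fine Γ) (per : ∀ a x, f (tr a x) = f x + η a) {c : ℤ × ℤ} {l : ℤ → Vx J}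
    (h : Up Γ η f c l) (b : ℤ × ℤ) {i : ℤ} (h1 : 2 ≤ i) (h2 : i ≤ η c) :
    Γ.Adj (tr b (l i)) (tr b (l (i - 1))) ∧ f (tr b (l (i - 1))) = f (tr b (l i)) - 1 := by
  have := h.ln.geo.adj (i - 1)
  rw [sub_add_cancel] at this
  refine ⟨hF.inv b _ _ this.symm, ?_⟩
  rw [per, per, h.ht i (by omega) h2, h.ht (i - 1) (by omega) (by omega)]
  ring

theorem Up.ch (hF : Fine Γ) (per : ∀ a x, f (tr a x) = f x + η a) {c : ℤ × ℤ} {l : ℤ → Vx J}
    (h : Up Γ η f c l) {an : Vx J → Vx J} (b : ℤ × ℤ) (M : ℕ) {i : ℤ} (h2 : i ≤ η c)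
    (h1 : 1 ≤ i - M) (han : ∀ t, i - M < t → t ≤ i → an (tr b (l t)) = tr b (l (t - 1))) :
    Ch Γ f an (tr b (l i)) M (tr b (l (i - M))) := by
  have key : ∀ m : ℕ, m ≤ M → an^[m] (tr b (l i)) = tr b (l (i - m)) := by
    intro m
    induction m with
    | zero => intro _; simp
    | succ m ih =>
      intro hm
      rw [Function.iterate_succ_apply', ih (by omega), han _ (by omega) (by omega)]
      push_cast
      rw [sub_sub]
  refine ⟨fun m hm => ?_, key M le_rfl⟩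
  rw [key m hm.le]
  exact ⟨_, h.hp hF per b (by omega) (by omega)⟩

/-- An equivariant parent map under which the chains of the two points of index `-2` end in
translates of independent classes. -/
theorem exists_an2 (hF : Fine Γ) (hN : Nrm (OV.DL Γ))
    (hη : ∀ a, a ≠ 0 → η a + 2 ≤ (OV.DL Γ a : ℤ)) (per : ∀ a x, f (tr a x) = f x + η a)
    {c1 c2 : ℤ × ℤ} {l1 l2 : ℤ → Vx J} (hd : det c1 c2 ≠ 0) (u1 : Up Γ η f c1 l1)
    (u2 : Up Γ η f c2 l2) (dis : ∀ s t, s < 0 → l1 s ≠ l2 t ∨ 0 < t) :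
    ∃ an : Vx J → Vx J, (∀ a x, an (tr a x) = tr a (an x)) ∧
      (∀ x, Hp Γ f x → Γ.Adj x (an x) ∧ f (an x) = f x - 1) ∧
      ∃ a2 M1 M2 y, det c1 a2 ≠ 0 ∧ Ch Γ f an (l1 (-2)) M1 (tr (-c1) (l1 1)) ∧
        Ch Γ f an (l2 (-2)) M2 (tr (-a2) y) ∧ (y = l1 1 ∨ y = l2 1) := by
  classical
  obtain ⟨an, eq, han⟩ := eqv_choice (fun x y : Vx J =>
    (∃ b i, 2 ≤ i ∧ i ≤ η c1 ∧ x = tr b (l1 i) ∧ y = tr b (l1 (i - 1))) ∨
    (¬ On l1 (η c1) x ∧ ∃ b i, 2 ≤ i ∧ i ≤ η c2 ∧ x = tr b (l2 i) ∧ y = tr b (l2 (i - 1))) ∨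
    (¬ On l1 (η c1) x ∧ ¬ On l2 (η c2) x ∧ Γ.Adj x y ∧ f y = f x - 1)) (by
      rintro a x y (⟨b, i, h1, h2, rfl, rfl⟩ | ⟨n, b, i, h1, h2, rfl, rfl⟩ | ⟨n1, n2, e, k⟩)
      · exact Or.inl ⟨b + a, i, h1, h2, tr_tr _ _ _, tr_tr _ _ _⟩
      · exact Or.inr (Or.inl ⟨by rwa [On.tr], b + a, i, h1, h2, tr_tr _ _ _, tr_tr _ _ _⟩)
      · exact Or.inr (Or.inr ⟨by rwa [On.tr], by rwa [On.tr], hF.inv a _ _ e, by
          rw [per, per, k]
          ring⟩))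
  have a1 : ∀ b i, 2 ≤ i → i ≤ η c1 → an (tr b (l1 i)) = tr b (l1 (i - 1)) := by
    intro b i h1 h2
    rcases han _ ⟨_, Or.inl ⟨b, i, h1, h2, rfl, rfl⟩⟩ with ⟨b', i', k1, k2, e, e'⟩ | k | k
    · obtain ⟨rfl, rfl⟩ := u1.uni hη per (by omega) h2 (by omega) k2 e
      exact e'
    · exact absurd ⟨b, i, h1, h2, rfl⟩ k.1
    · exact absurd ⟨b, i, h1, h2, rfl⟩ k.1
  have a2 : ∀ b i, 2 ≤ i → i ≤ η c2 → ¬ On l1 (η c1) (l2 i) →
      an (tr b (l2 i)) = tr b (l2 (i - 1)) := by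
    intro b i h1 h2 n
    rw [← On.tr b] at n
    rcases han _ ⟨_, Or.inr (Or.inl ⟨n, b, i, h1, h2, rfl, rfl⟩)⟩ with
      ⟨b', i', k1, k2, e, -⟩ | ⟨-, b', i', k1, k2, e, e'⟩ | k
    · exact absurd ⟨b', i', k1, k2, e⟩ n
    · obtain ⟨rfl, rfl⟩ := u2.uni hη per (by omega) h2 (by omega) k2 e
      exact e'
    · exact absurd ⟨b, i, h1, h2, rfl⟩ k.2.1
  have full : ∀ b i, 1 ≤ i → i ≤ η c1 → ∃ M, Ch Γ f an (tr b (l1 i)) M (tr b (l1 1)) := by
    intro b i h1 h2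
    obtain ⟨M, hM⟩ := Int.eq_ofNat_of_zero_le (show 0 ≤ i - 1 by omega)
    have := u1.ch hF per (an := an) b M h2 (by omega) fun t k1 k2 => a1 b t (by omega) (by omega)
    exact ⟨M, by rwa [show i - M = 1 by omega] at this⟩
  have p1 : l1 (-2) = tr (-c1) (l1 (η c1)) := by rw [← u1.m2]; congr 1; ring
  have p2 : l2 (-2) = tr (-c2) (l2 (η c2)) := by rw [← u2.m2]; congr 1; ring
  refine ⟨an, eq, fun x hx => ?_, ?_⟩
  · by_cases n1 : On l1 (η c1) x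
    · obtain ⟨b, i, h1, h2, rfl⟩ := n1
      rw [a1 b i h1 h2]
      exact u1.hp hF per b h1 h2
    by_cases n2 : On l2 (η c2) x
    · obtain ⟨b, i, h1, h2, rfl⟩ := n2
      rw [a2 b i h1 h2 (by rwa [On.tr] at n1)]
      exact u2.hp hF per b h1 h2
    obtain ⟨y, hy⟩ := hx
    rcases han x ⟨y, Or.inr (Or.inr ⟨n1, n2, hy⟩)⟩ with
      ⟨b', i', k1, k2, e, -⟩ | ⟨-, b', i', k1, k2, e, -⟩ | k
    exacts [absurd ⟨b', i', k1, k2, e⟩ n1, absurd ⟨b', i', k1, k2, e⟩ n2, k.2.2]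
  obtain ⟨M1, hM1⟩ := full (-c1) (η c1) u1.pos le_rfl
  rw [← p1] at hM1
  by_cases hm : ∃ i, 2 ≤ i ∧ i ≤ η c2 ∧ On l1 (η c1) (l2 i)
  · obtain ⟨i0, ⟨k1, k2, b, i1, m1, m2, e⟩, mx⟩ := Int.exists_greatest_of_bdd
      (P := fun i => 2 ≤ i ∧ i ≤ η c2 ∧ On l1 (η c1) (l2 i)) ⟨η c2, fun z hz => hz.2.1⟩ hm
    obtain ⟨M, hM⟩ := Int.eq_ofNat_of_zero_le (show 0 ≤ η c2 - i0 by omega)
    have c0 := u2.ch hF per (an := an) (-c2) M le_rfl (by omega) fun t g1 g2 =>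
      a2 _ t (by omega) g2 fun k => by
        have := mx t ⟨by omega, g2, k⟩
        omega
    rw [← p2, show η c2 - M = i0 by omega, e, tr_tr] at c0
    obtain ⟨M', c1'⟩ := full (b + -c2) i1 (by omega) m2
    refine ⟨c2 - b, M1, M' + M, l1 1, fun h0 => ?_, hM1, ?_, Or.inl rfl⟩
    · have hc1 : c1 ≠ 0 := by rintro rfl; simp [det] at hd
      obtain ⟨b0, hb0⟩ := Lat2P.prim hN hη hc1 u1.sl.le
      have dc := Lat2P.dec hb0 (c2 - b)
      rw [h0, zero_smul, add_zero] at dc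
      set k := det (c2 - b) b0 with hk
      have e1 : l2 (i0 - (η c2 + 2)) = l1 (i1 + -k * OV.DL Γ c1) := by
        rw [u2.m2, e, tr_tr, PkDNP.l_mul u1.ln.per, neg_smul, dc]
        congr 1
        abel
      have f1 := congrArg f e1
      rw [u2.m2, PkDNP.l_mul u1.ln.per, per, per, u2.ht i0 (by omega) k2,
        u1.ht i1 (by omega) m2, map_neg, map_zsmul, smul_eq_mul] at f1
      have q1 := u1.pos
      have q2 := u1.sl
      rcases le_or_gt k 0 with g | g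
      · nlinarith
      · rcases dis (i1 + -k * OV.DL Γ c1) (i0 - (η c2 + 2)) (by nlinarith) with r | r
        · exact r e1.symm
        · omega
    · rw [show -(c2 - b) = b + -c2 by abel]
      exact c0.trans c1'
  · obtain ⟨M, hM⟩ := Int.eq_ofNat_of_zero_le (show 0 ≤ η c2 - 1 by have := u2.pos; omega)
    have c0 := u2.ch hF per (an := an) (-c2) M le_rfl (by omega) fun t g1 g2 =>
      a2 _ t (by omega) g2 fun k => hm ⟨t, by omega, g2, k⟩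
    rw [← p2, show η c2 - M = 1 by omega] at c0
    exact ⟨c2, M1, M, l2 1, hd, hM1, c0, Or.inr rfl⟩

/-- Lower bound for the distance from a translate of a vertex near the root. -/
theorem far (hF : Fine Γ) (hη : ∀ a, a ≠ 0 → η a + 2 ≤ (OV.DL Γ a : ℤ)) {c : ℤ × ℤ}
    {l : ℤ → Vx J} (L : FZ2.Ln Γ c l) (sl : (OV.DL Γ c : ℤ) = η c + 2) (a : ℤ × ℤ) {i : ℤ}
    (h2 : i ≤ η c + 1) : i ≤ η a + Γ.dist (tr a (l 0)) (l i) := by
  have p := L.per 0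
  rw [zero_add] at p
  have d := L.geo.dist (OV.DL Γ c) i
  rw [p] at d
  by_cases k : a = c
  · rw [k, d]
    omega
  · have g := FS.gap hη (l 0) k
    have t := dist_tri hF.pl (tr a (l 0)) (l i) (tr c (l 0))
    rw [SimpleGraph.dist_comm (u := l i), d] at t
    omega

/-- The same for a neighbour `z` of the root that is the predecessor of the root on the line or
a neighbour of it. -/
theorem far' (hF : Fine Γ) (hη : ∀ a, a ≠ 0 → η a + 2 ≤ (OV.DL Γ a : ℤ)) {c : ℤ × ℤ}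
    {l : ℤ → Vx J} (L : FZ2.Ln Γ c l) (sl : (OV.DL Γ c : ℤ) = η c + 2) {z : Vx J}
    (h0 : Γ.Adj z (l 0)) (hz : z = l (-1) ∨ Γ.Adj z (l (-1))) (a : ℤ × ℤ) {i : ℤ}
    (h2 : i ≤ η c) : i ≤ η a + Γ.dist (tr a z) (l i) := by
  have p := L.per 0
  rw [zero_add] at p
  have p' := L.per (-1)
  have d := L.geo.dist (OV.DL Γ c) i
  have d' := L.geo.dist i (-1 + OV.DL Γ c)
  rw [p] at d
  rw [p'] at d'
  by_cases k : a = c
  · have t := dist_tri hF.pl (tr c (l 0)) (tr c z) (l i)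
    rw [dist_adj (hF.inv c _ _ h0.symm), d] at t
    rw [k]
    omega
  · have g := FS.gap hη z k
    have t := dist_tri hF.pl (tr a z) (l i) (tr c z)
    have t' := dist_tri hF.pl (l i) (tr c (l (-1))) (tr c z)
    have d1 : Γ.dist (tr c (l (-1))) (tr c z) ≤ 1 := by
      rcases hz with rfl | e
      · simp
      · exact (dist_adj (hF.inv c _ _ e.symm)).le
    omega

/-- Heights along a line through the single root. -/
theorem ht_one (hF : Fine Γ) (hη : ∀ a, a ≠ 0 → η a + 2 ≤ (OV.DL Γ a : ℤ)) {c : ℤ × ℤ}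
    {l : ℤ → Vx J} (L : FZ2.Ln Γ c l) (sl : (OV.DL Γ c : ℤ) = η c + 2) {h : Vx J → ℤ}
    (hf : IsH Γ η {l 0} h f) {i : ℤ} (h1 : 0 ≤ i) (h2 : i ≤ η c + 1) : f (l i) = h (l 0) + i := by
  have u := hf.le (r := l 0) rfl 0 (l i)
  rw [tr_zero, L.geo.dist, map_zero] at u
  obtain ⟨_, rfl, a, e⟩ := (hf (l i)).1
  have := far hF hη L sl a h2
  omega

/-- Heights along a line through the root `l 0` with a second root `z` at the same height. -/
theorem ht_two (hF : Fine Γ) (hη : ∀ a, a ≠ 0 → η a + 2 ≤ (OV.DL Γ a : ℤ)) {c : ℤ × ℤ}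
    {l : ℤ → Vx J} (L : FZ2.Ln Γ c l) (sl : (OV.DL Γ c : ℤ) = η c + 2) {z : Vx J}
    (h0 : Γ.Adj z (l 0)) (hz : z = l (-1) ∨ Γ.Adj z (l (-1))) {h : Vx J → ℤ} (hh : h z = h (l 0))
    (hf : IsH Γ η {l 0, z} h f) {i : ℤ} (h1 : 0 ≤ i) (h2 : i ≤ η c) :
    f (l i) = h (l 0) + i := by
  have u := hf.le (r := l 0) (Or.inl rfl) 0 (l i)
  rw [tr_zero, L.geo.dist, map_zero] at u
  obtain ⟨_, rfl | rfl, a, e⟩ := (hf (l i)).1
  · have := far hF hη L sl a (i := i) (by omega)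
    omega
  · have := far' hF hη L sl h0 hz a h2
    omega

end Pool.Agent.P.MP_08fd93_co.FW
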