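import Pool.Agent.P.MP_08fd93_co.FW.W2
import Pool.Agent.P.MP_08fd93_co.FW.W3

/-! Depth two: lowering a neighbour of the root; one edge of the zone as a barrier; ranks. -/

set_option autoImplicit false

namespace Pool.Agent.P.MP_08fd93_co.FW

open OV FZ FZ2

section
variable {J : Type} {Γ : SimpleGraph (Vx J)} {η : ℤ × ℤ →+ ℤ} {f : Vx J → ℤ}

/-- A second root `z` at the height of the first root lowers `z'`. -/
def Low (Γ : SimpleGraph (Vx J)) (η : ℤ × ℤ →+ ℤ) (z z' : Vx J) : Prop :=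
  ∃ a, η a + Γ.dist (tr a z) z' ≤ 0

theorem Low.refl (z : Vx J) : Low Γ η z z := ⟨0, by simp [tr_zero]⟩

theorem Low.trans (hF : Fine Γ) {x y z : Vx J} (h : Low Γ η x y) (h' : Low Γ η y z) :
    Low Γ η x z := by
  obtain ⟨a, ha⟩ := h
  obtain ⟨b, hb⟩ := h'
  refine ⟨a + b, ?_⟩
  have t := dist_tri hF.pl (tr (a + b) x) (tr b y) z
  rw [← tr_tr, PkDNP.dist_tr hF] at t
  rw [← tr_tr, map_add]
  omega

/-- Two different neighbours of a vertex do not lower each other. -/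
theorem Low.anti (hF : Fine Γ) (hη : ∀ a, a ≠ 0 → η a + 2 ≤ (OV.DL Γ a : ℤ))
    (h3 : ∀ a, a ≠ 0 → 3 ≤ OV.DL Γ a) {v x y : Vx J} (hx : Γ.Adj v x) (hy : Γ.Adj v y)
    (h : Low Γ η x y) (h' : Low Γ η y x) : x = y := by
  obtain ⟨a, ha⟩ := h
  obtain ⟨b, hb⟩ := h'
  have t := dist_tri hF.pl (tr (a + b) x) (tr b y) x
  rw [← tr_tr, PkDNP.dist_tr hF, tr_tr] at t
  have e : a + b = 0 := by
    by_contra hne
    have g := FS.gap hη x (a := a + b) (b := 0) hne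
    rw [tr_zero, map_zero, map_add] at g
    omega
  have e' : η a + η b = 0 := by rw [← map_add, e, map_zero]
  have d : Γ.dist (tr a x) y + Γ.dist (tr b y) x ≤ 0 := by omega
  have d0 := dist_zero hF.pl (show Γ.dist (tr a x) y = 0 by omega)
  by_cases k : a = 0
  · rwa [k, tr_zero] at d0
  · have g := PkCon1P.DL_le Γ a x
    have t2 := dist_tri hF.pl x v y
    rw [dist_adj hx.symm, dist_adj hy] at t2
    have := h3 a k
    rw [d0] at g
    omega

/-- In a finite nonempty set of neighbours of a vertex some element lowers no other one. -/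
theorem low_max (hF : Fine Γ) (hη : ∀ a, a ≠ 0 → η a + 2 ≤ (OV.DL Γ a : ℤ))
    (h3 : ∀ a, a ≠ 0 → 3 ≤ OV.DL Γ a) {v : Vx J} {A : Set (Vx J)} (hA : ∀ x ∈ A, Γ.Adj v x)
    (ne : A.Nonempty) : ∃ z ∈ A, ∀ z' ∈ A, Low Γ η z z' → z' = z := by
  have fin : A.Finite := (hF.lf v).subset hA
  obtain ⟨z, hz, mn⟩ := Set.exists_min_image A (fun z => {y | y ∈ A ∧ Low Γ η z y}.ncard) fin ne
  refine ⟨z, hz, fun z' hz' l => ?_⟩
  by_contra hne
  have s : {y | y ∈ A ∧ Low Γ η z' y} ⊂ {y | y ∈ A ∧ Low Γ η z y} :=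
    ⟨fun y hy => ⟨hy.1, l.trans hF hy.2⟩, fun k =>
      hne (Low.anti hF hη h3 (hA _ hz') (hA _ hz) (k ⟨hz, Low.refl z⟩).2 l)⟩
  have := Set.ncard_lt_ncard s (fin.subset fun _ k => k.1)
  have := mn z' hz'
  omega

/-- A neighbour of the predecessor does not lower it. -/
theorem not_low_adj (hF : Fine Γ) (hη : ∀ a, a ≠ 0 → η a + 2 ≤ (OV.DL Γ a : ℤ)) {z z' : Vx J}
    (e : Γ.Adj z z') : ¬ Low Γ η z z' := by
  rintro ⟨a, ha⟩
  by_cases k : a = 0
  · rw [k, tr_zero, map_zero, dist_adj e] at ha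
    omega
  · have g := FS.gap hη z (a := a) (b := 0) k
    have t := dist_tri hF.pl (tr a z) z' z
    rw [tr_zero, map_zero] at g
    rw [dist_adj e.symm] at t
    omega

/-- Heights along a line whose predecessor of the root is not lowered. -/
theorem ht_two' (hF : Fine Γ) (hη : ∀ a, a ≠ 0 → η a + 2 ≤ (OV.DL Γ a : ℤ)) {c : ℤ × ℤ}
    {l : ℤ → Vx J} (L : FZ2.Ln Γ c l) (sl : (OV.DL Γ c : ℤ) = η c + 2) {z : Vx J}
    (hz : ¬ Low Γ η z (l (-1))) {h : Vx J → ℤ} (hh : h z = h (l 0))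
    (hf : IsH Γ η {l 0, z} h f) {i : ℤ} (h1 : 0 ≤ i) (h2 : i ≤ η c + 1) :
    f (l i) = h (l 0) + i := by
  have u := hf.le (r := l 0) (Or.inl rfl) 0 (l i)
  rw [tr_zero, L.geo.dist, map_zero] at u
  obtain ⟨_, rfl | rfl, a, e⟩ := (hf (l i)).1
  · have := far hF hη L sl a h2
    omega
  · by_contra hne
    refine hz ⟨a + -c, ?_⟩
    have p' := L.per (-1)
    have d' := L.geo.dist i (-1 + OV.DL Γ c)
    rw [p'] at d'
    rename_i z
    have t := dist_tri hF.pl (tr a z) (l i) (tr c (l (-1)))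
    rw [← PkDNP.dist_tr hF c, tr_tr, neg_add_cancel_right, map_add, map_neg]
    omega

/-- With two roots at the same height the heights drop by at most one. -/
theorem two_le {v z : Vx J} (hF : Fine Γ) (e : Γ.Adj v z) {h f' : Vx J → ℤ} (hh : h z = h v)
    (hf : IsH Γ η {v} h f) (hf' : IsH Γ η {v, z} h f') (x : Vx J) :
    f' x ≤ f x ∧ f x ≤ f' x + 1 := by
  constructor
  · obtain ⟨_, rfl, a, k⟩ := (hf x).1
    rw [k]
    exact hf'.le (Or.inl rfl) a x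
  · obtain ⟨_, rfl | rfl, a, k⟩ := (hf' x).1
    · have := hf.le (r := _) rfl a x
      omega
    · have := hf.le (r := v) rfl a x
      rename_i z
      have t := dist_tri hF.pl (tr a v) (tr a z) x
      rw [dist_adj (hF.inv a _ _ e)] at t
      omega

end

variable {J : Type} {A Z : Set (Vx J)} {φ : Vx J → Vx J}

theorem it_mem (hA : ∀ y ∈ A, φ y ∈ A) {y : Vx J} (hy : y ∈ A) (t : ℕ) : φ^[t] y ∈ A := by
  induction t with
  | zero => exact hy
  | succ t ih =>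
    rw [Function.iterate_succ_apply']
    exact hA _ ih

theorem it_tr (hA : ∀ y ∈ A, φ y ∈ A) (eqv : ∀ a, ∀ y ∈ A, φ (tr a y) = tr a (φ y)) (a : ℤ × ℤ)
    {y : Vx J} (hy : y ∈ A) (t : ℕ) : φ^[t] (tr a y) = tr a (φ^[t] y) := by
  induction t with
  | zero => rfl
  | succ t ih => rw [Function.iterate_succ_apply', Function.iterate_succ_apply', ih,
      eqv a _ (it_mem hA hy t)]

/-- If the edges of the zone outside `S` lie under the translates of one edge, then one edge of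
the zone together with `S` meets all chains. -/
theorem bar2 (hA : ∀ y ∈ A, φ y ∈ A) (eqv : ∀ a, ∀ y ∈ A, φ (tr a y) = tr a (φ y)) {N : ℕ}
    (hb : ∀ y ∈ A, ∃ t, t ≤ N ∧ φ^[t] y ∈ Z) {e : Vx J} (he : e ∈ A) {S : Set (Vx J)}
    (hS : ∀ z ∈ Z, z ∈ S ∨ ∃ a, φ z = tr a e) :
    ∃ g ∈ Z, ∀ y ∈ A, ∃ t, t ≤ 2 * N + 1 ∧ (φ^[t] y ∈ S ∨ ∃ a, φ^[t] y = tr a g) := by
  obtain ⟨t0, h0, hg⟩ := hb e he
  refine ⟨_, hg, fun y hy => ?_⟩
  obtain ⟨t, ht, hz⟩ := hb y hy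
  rcases hS _ hz with k | ⟨a, k⟩
  · exact ⟨t, by omega, Or.inl k⟩
  · refine ⟨t0 + (t + 1), by omega, Or.inr ⟨a, ?_⟩⟩
    rw [Function.iterate_add_apply, Function.iterate_succ_apply', k, it_tr hA eqv a he]

/-- The rank that belongs to a barrier. -/
theorem rank_of {N : ℕ} (hb : ∀ y ∈ A, ∃ t, t ≤ N ∧ φ^[t] y ∈ Z) :
    ∃ r : Vx J → ℕ, (∀ y ∈ A, r y ≤ N) ∧ ∀ y ∈ A, y ∈ Z ∨ r (φ y) < r y := by
  classical
  refine ⟨fun y => sInf {t | φ^[t] y ∈ Z}, fun y hy => ?_, fun y hy => ?_⟩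
  · obtain ⟨t, ht, hz⟩ := hb y hy
    exact (Nat.sInf_le hz).trans ht
  · obtain ⟨t, -, hz⟩ := hb y hy
    have m : φ^[sInf {t | φ^[t] y ∈ Z}] y ∈ Z := Nat.sInf_mem (s := {t | φ^[t] y ∈ Z}) ⟨t, hz⟩
    rcases hn : sInf {t | φ^[t] y ∈ Z} with _ | n
    · rw [hn] at m
      exact Or.inl m
    · rw [hn, Function.iterate_succ_apply] at m
      have := Nat.sInf_le (s := {t | φ^[t] (φ y) ∈ Z}) m
      exact Or.inr (by
        show sInf {t | φ^[t] (φ y) ∈ Z} < sInf {t | φ^[t] y ∈ Z}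
        omega)

end Pool.Agent.P.MP_08fd93_co.FW
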